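import Pool.Agent.W_448st_h88.MgA

/-! Coefficients of signed matching polynomials and the values at `-1` (MP_448cb3_co). -/

namespace Pool.Agent.GaussPoset.St

set_option linter.unusedSectionVars false

open Finset Polynomial

section mat

variable {α : Type*} [DecidableEq α] {A : Finset α → ℤ} {V W : Finset α} {v : α}

/-- ordered sum over the pairs of `V` -/
def P2 (V : Finset α) (g : Finset α → ℤ) : ℤ := ∑ u ∈ V, ∑ w ∈ V.erase u, g {u, w}

lemma P2_insert (g : Finset α → ℤ) (hv : v ∉ V) :
    P2 (insert v V) g = P2 V g + 2 * ∑ u ∈ V, g {v, u} := by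
  unfold P2
  rw [sum_insert hv, erase_insert hv]
  have h1 : ∀ u ∈ V, ∑ w ∈ (insert v V).erase u, g {u, w} = g {v, u} + ∑ w ∈ V.erase u, g {u, w} := by
    intro u hu
    have hvu : v ≠ u := fun h => hv (h ▸ hu)
    have h2 : (insert v V).erase u = insert v (V.erase u) := erase_insert_of_ne hvu
    rw [h2, sum_insert (fun h => hv (mem_of_mem_erase h)), pair_comm u v]
  rw [sum_congr rfl h1, sum_add_distrib]
  ring

lemma P2_erase (g : Finset α → ℤ) (hv : v ∈ V) :
    P2 V g = P2 (V.erase v) g + 2 * ∑ u ∈ V.erase v, g {v, u} := by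
  have h := P2_insert g (notMem_erase v V)
  rwa [insert_erase hv] at h

/-- twice the sum over the pairs is the ordered sum -/
theorem two_mul_pairs (g : Finset α → ℤ) :
    2 * ∑ e ∈ V.powersetCard 2, g e = P2 V g := by
  classical
  have h1 : ∀ u ∈ V, ∑ w ∈ V.erase u, g {u, w} =
      ∑ e ∈ (V.powersetCard 2).filter (fun e => u ∈ e), g e := by
    intro u hu
    refine sum_nbij (fun w => ({u, w} : Finset α)) ?_ ?_ ?_ ?_
    · intro w hw
      have hw' := mem_erase.1 hw
      rw [mem_filter, mem_powersetCard]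
      refine ⟨⟨?_, card_pair (Ne.symm hw'.1)⟩, mem_insert_self _ _⟩
      intro x hx
      rcases mem_insert.1 hx with rfl | hx
      · exact hu
      · rw [mem_singleton.1 hx]
        exact hw'.2
    · intro a ha b hb hab
      have hab' : ({u, a} : Finset α) = {u, b} := hab
      have h2 : a ∈ ({u, b} : Finset α) := by
        rw [← hab']
        exact mem_insert_of_mem (mem_singleton_self a)
      rcases mem_insert.1 h2 with h3 | h3
      · exact absurd h3 (mem_erase.1 (mem_coe.1 ha)).1
      · exact mem_singleton.1 h3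
    · intro e he
      rw [mem_coe, mem_filter, mem_powersetCard] at he
      obtain ⟨⟨he1, he2⟩, he3⟩ := he
      have h4 : (e.erase u).card = 1 := by rw [card_erase_of_mem he3, he2]
      obtain ⟨w, hw⟩ := card_eq_one.1 h4
      have hwe : w ∈ e.erase u := by
        rw [hw]
        exact mem_singleton_self w
      refine ⟨w, ?_, ?_⟩
      · rw [mem_coe, mem_erase]
        exact ⟨ne_of_mem_erase hwe, he1 (mem_of_mem_erase hwe)⟩
      · show ({u, w} : Finset α) = e
        rw [← insert_erase he3, hw]
    · intro w _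
      rfl
  unfold P2
  rw [sum_congr rfl h1]
  have h5 : ∑ u ∈ V, ∑ e ∈ (V.powersetCard 2).filter (fun e => u ∈ e), g e =
      ∑ e ∈ V.powersetCard 2, ∑ u ∈ e, g e := by
    refine sum_comm' ?_
    intro u e
    rw [mem_filter, mem_powersetCard]
    constructor
    · rintro ⟨_, h, h3⟩
      exact ⟨h3, h⟩
    · rintro ⟨h3, h⟩
      exact ⟨h.1 h3, h, h3⟩
  rw [h5, mul_sum]
  refine sum_congr rfl (fun e he => ?_)
  rw [sum_const, (mem_powersetCard.1 he).2]
  simp

lemma coeff_one_insert (hv : v ∉ V) :
    (mp A (insert v V)).coeff 1 = (mp A V).coeff 1 + ∑ u ∈ V, A {v, u} := by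
  rw [mp_insert A hv, coeff_add, finsetSum_coeff]
  congr 1
  refine sum_congr rfl (fun u _ => ?_)
  rw [mul_assoc, coeff_C_mul, coeff_X_mul, coeff_zero_mp, mul_one]

lemma coeff_two_insert (hv : v ∉ V) :
    (mp A (insert v V)).coeff 2 = (mp A V).coeff 2 +
      ∑ u ∈ V, A {v, u} * (mp A (V.erase u)).coeff 1 := by
  rw [mp_insert A hv, coeff_add, finsetSum_coeff]
  congr 1
  refine sum_congr rfl (fun u _ => ?_)
  rw [mul_assoc, coeff_C_mul, coeff_X_mul]

/-- the first coefficient -/
theorem two_coeff_one (V : Finset α) : 2 * (mp A V).coeff 1 = P2 V A := by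
  induction V using Finset.induction_on with
  | empty => simp [P2, coeff_one]
  | insert a s ha ih =>
    rw [coeff_one_insert ha, mul_add, ih, P2_insert A ha]

/-- the weighted degree -/
def dg (A : Finset α → ℤ) (V : Finset α) (u : α) : ℤ := ∑ w ∈ V.erase u, A {u, w}

lemma dg_insert {a u : α} (ha : a ∉ V) (hu : u ∈ V) :
    dg A (insert a V) u = dg A V u + A {a, u} := by
  unfold dg
  have hau : a ≠ u := fun h => ha (h ▸ hu)
  have h2 : (insert a V).erase u = insert a (V.erase u) := erase_insert_of_ne hau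
  rw [h2, sum_insert (fun h => ha (mem_of_mem_erase h)), pair_comm u a]
  ring

/-- the second coefficient -/
theorem eight_coeff_two (V : Finset α) :
    8 * (mp A V).coeff 2 = P2 V A ^ 2 + 2 * P2 V (fun T => A T ^ 2) -
      4 * ∑ u ∈ V, dg A V u ^ 2 := by
  induction V using Finset.induction_on with
  | empty => simp [P2, coeff_one]
  | insert a s ha ih =>
    rw [coeff_two_insert ha, mul_add, ih, P2_insert A ha, P2_insert _ ha, sum_insert ha]
    have h1 : ∀ u ∈ s, 8 * (A {a, u} * (mp A (s.erase u)).coeff 1) =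
        4 * (A {a, u} * P2 s A) - 8 * (A {a, u} * dg A s u) := by
      intro u hu
      have h2 := two_coeff_one (A := A) (s.erase u)
      have h3 := P2_erase A hu
      have h4 : dg A s u = ∑ w ∈ s.erase u, A {u, w} := rfl
      rw [← h4] at h3
      rw [h3]
      linear_combination 4 * A {a, u} * h2
    have h5 : 8 * ∑ u ∈ s, A {a, u} * (mp A (s.erase u)).coeff 1 =
        4 * (∑ u ∈ s, A {a, u}) * P2 s A - 8 * ∑ u ∈ s, A {a, u} * dg A s u := by
      rw [mul_sum, sum_congr rfl h1, sum_sub_distrib, mul_sum, mul_sum, sum_mul]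
      congr 1
      refine sum_congr rfl (fun u _ => ?_)
      ring
    have h6 : ∑ u ∈ s, dg A (insert a s) u ^ 2 =
        ∑ u ∈ s, dg A s u ^ 2 + 2 * ∑ u ∈ s, A {a, u} * dg A s u + ∑ u ∈ s, A {a, u} ^ 2 := by
      rw [mul_sum, ← sum_add_distrib, ← sum_add_distrib]
      refine sum_congr rfl (fun u hu => ?_)
      rw [dg_insert ha hu]
      ring
    have h7 : dg A (insert a s) a = ∑ u ∈ s, A {a, u} := by
      unfold dg
      rw [erase_insert ha]
    rw [h5, h6, h7]
    ring

/-- consequences of `mp = 1` : the sum of the weights vanishes -/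
lemma P2_eq_zero (h : mp A V = 1) : P2 V A = 0 := by
  have h1 := two_coeff_one (A := A) V
  rw [h, coeff_one, if_neg (by norm_num), mul_zero] at h1
  exact h1.symm

/-- consequences of `mp = 1` : sum of the squares of the weights and of the degrees -/
lemma sq_eq (h : mp A V = 1) : 2 * ∑ u ∈ V, dg A V u ^ 2 = P2 V (fun T => A T ^ 2) := by
  have h1 := eight_coeff_two (A := A) V
  rw [h, coeff_one, if_neg (by norm_num), mul_zero, P2_eq_zero h] at h1
  linarith

/-- recursion for the values at `-1` -/
theorem Fm_rec {T : Finset α} (hv : v ∈ V) (hT : v ∉ T) :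
    Fm A V T = Fm A V (insert v T) -
      ∑ x ∈ V \ insert v T, A {v, x} * Fm A V (insert x (insert v T)) := by
  have h1 : V \ T = insert v (V \ insert v T) := by
    ext x
    simp only [mem_sdiff, mem_insert, not_or]
    constructor
    · rintro ⟨h1, h2⟩
      by_cases h : x = v
      · exact Or.inl h
      · exact Or.inr ⟨h1, h, h2⟩
    · rintro (rfl | ⟨h1, _, h3⟩)
      · exact ⟨hv, hT⟩
      · exact ⟨h1, h3⟩
  have h2 : v ∉ V \ insert v T := by
    rw [mem_sdiff]
    exact fun h => h.2 (mem_insert_self _ _)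
  unfold Fm
  rw [h1, mp_insert A h2, eval_add, eval_finsetSum, sub_eq_add_neg, ← sum_neg_distrib]
  congr 1
  refine sum_congr rfl (fun x _ => ?_)
  have h3 : (V \ insert v T).erase x = V \ insert x (insert v T) := by
    ext y
    simp only [mem_erase, mem_sdiff, mem_insert, not_or]
    tauto
  rw [h3, eval_mul, eval_mul, eval_C, eval_X]
  ring

lemma Fm_empty (h : mp A V = 1) : Fm A V ∅ = 1 := by
  unfold Fm
  rw [sdiff_empty, h, eval_one]

end mat

end Pool.Agent.GaussPoset.St
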