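import Pool.Agent.W_448st_h88.MgE
import Pool.Agent.W_448C_h48.StC
import Pool.Agent.W_448kk_h94.KkD

/-! Stars at the first bad level: definitions (MP_448cb3_co). -/

namespace Pool.Agent.GaussPoset.St

set_option linter.unusedSectionVars false

open Finset Polynomial Win

universe u

variable {P : Type u} [Fintype P] [PartialOrder P] [DecidableEq P] {r j : ℕ}

/-- number of double near elements (both sides) with the set `T` of sites -/
noncomputable def Bf (i : ℕ) (T : Finset P) : ℤ := (CoreC_L i T).card + (CoreC_U i T).card

/-- four times the contribution of a star to the first order identity -/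
noncomputable def Tz (d : P × P × P) : ℤ :=
  -4 + 4 * (((uc d.2.2).card + (dc d.2.2).card : ℤ) - ((uc d.2.1).card + (dc d.2.1).card)) +
    2 * ((dcv d.1 d.2.1 + ucv d.1 d.2.1 : ℤ) - (dcv d.1 d.2.2 + ucv d.1 d.2.2))

/-- the contribution of a star is not positive; if it is zero then the new neighbour is single-up,
and the lost edge is inner or its end has no double lower cover -/
structure Val (j : ℕ) (d : P × P × P) : Prop where
  le : Tz d ≤ 0
  new : Tz d = 0 → (uc d.2.1).card = 1
  lost : Tz d = 0 → ((uc d.1).card = 2 ∧ (uc d.2.2).card = 2) ∨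
    ((uc d.2.2).card = 1 ∧ ∀ w, lev w = j → w ≠ d.2.2 → dcv d.2.2 w = 0)

end Pool.Agent.GaussPoset.St
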