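import Pool.Agent.W_448st_h88.MgG
import Pool.Agent.W_448C_h48.StF

/-! The stars of a strip and their values (MP_448cb3_co). -/

namespace Pool.Agent.GaussPoset.St

set_option linter.unusedSectionVars false

open Finset Polynomial Win

universe u

variable {P : Type u} [Fintype P] [PartialOrder P] [DecidableEq P] {r j : ℕ} {t : P} {m : ℕ}
  {x : ℕ → P}

/-- the stars of a part of the level -/
structure SRes (j : ℕ) (W : Finset P) (I : Finset (P × P × P)) : Prop where
  starry : Starry (Df j) W I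
  val : ∀ d ∈ I, Val j d
  far : ∀ d ∈ I, ∀ d' ∈ I, d ≠ d' → dcv d.2.1 d'.2.2 = 0 ∧ ucv d.2.1 d'.2.2 = 0

lemma strip_other (h : Pre P r j) (ht : lev t = 0) (S : Strip P j t m x) {a : ℕ} (ha : a ≤ m)
    {w : P} (hw : lev w = j) (hn : w ∉ wt0 j t) : dcv (x a) w = 0 := by
  have h1 : w ∈ lv P j := mem_lv.2 hw
  rw [lv_eq j, mem_biUnion] at h1
  obtain ⟨t', ht', h2⟩ := h1
  have hne : t ≠ t' := by
    rintro rfl
    exact hn h2
  exact (wt0_cross h (mem_lv.2 ht) ht' hne (mem_wt0.2 ⟨S.lev_x a ha, S.le_t a ha⟩) h2).1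

/-- the number of double lower covers -/
lemma dgD_strip (h : Pre P r j) (ht : lev t = 0) (S : Strip P j t m x) {a : ℕ} (ha : a ≤ m) :
    dgD j (x a) = ∑ b ∈ (range (m + 1)).erase a, (dcv (x a) (x b) : ℤ) := by
  rw [← S.sum_SV_erase ha (fun v => (dcv (x a) v : ℤ))]
  unfold dgD
  symm
  have h0 : SV m x = wt0 j t := (strip_image S).symm
  rw [h0]
  refine sum_subset ?_ ?_
  · refine erase_subset_erase _ ?_
    intro v hv
    exact mem_lv.2 (mem_wt0.1 hv).1
  · intro w hw hw'
    rw [mem_erase, mem_lv] at hw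
    have h1 : w ∉ wt0 j t := fun h2 => hw' (mem_erase.2 ⟨hw.1, h2⟩)
    rw [strip_other h ht S ha hw.2 h1]
    rfl

lemma sum_le_dc (h : Pre P r j) (ht : lev t = 0) (S : Strip P j t m x) {a : ℕ} (ha : a ≤ m) :
    ∑ b ∈ (range (m + 1)).erase a, (dcv (x a) (x b) : ℤ) ≤ (dc (x a)).card := by
  rw [← dgD_strip h ht S ha, ← (cnt_dbL h.H (S.lev_x a ha)).2]
  have h1 : (dbL P j).filter (fun w => x a ∈ uc w) ⊆ dc (x a) := by
    intro w hw
    rw [mem_filter, mem_uc] at hw
    exact mem_dc.2 hw.2
  exact_mod_cast card_le_card h1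

/-- all lower covers of a double-up site are double -/
lemma sum_eq_dc (h : Pre P r j) (ht : lev t = 0) (S : Strip P j t m x) {a : ℕ} (ha : a ≤ m)
    (h2 : (uc (x a)).card = 2) :
    ∑ b ∈ (range (m + 1)).erase a, (dcv (x a) (x b) : ℤ) = (dc (x a)).card := by
  rw [← dgD_strip h ht S ha, ← (cnt_dbL h.H (S.lev_x a ha)).2]
  have h1 : (dbL P j).filter (fun w => x a ∈ uc w) = dc (x a) := by
    ext w
    rw [mem_filter, mem_uc, mem_dc, mem_dbL]
    constructor
    · exact fun h => h.2
    · intro hw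
      have hl := lev_covBy h.H.gauss hw
      rw [S.lev_x a ha] at hl
      exact ⟨⟨hl, h.low_dbl (S.lev_x a ha) h2 hw⟩, hw⟩
  rw [h1]

lemma dcv_le_dc (v v' : P) : dcv v v' ≤ (dc v).card := by
  classical
  unfold dcv
  refine card_le_card ?_
  intro y hy
  rw [mem_filter] at hy
  exact mem_dc.2 hy.2.1

/-- the defects of the pairs of a strip -/
lemma Df_val (h : Pre P r j) (S : Strip P j t m x) {a b : ℕ} (hab : a < b) (hb : b ≤ m) :
    Df j {x a, x b} = (dcv (x a) (x b) : ℤ) - (if a + 1 = b then 1 else 0) := by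
  rw [Df_pair h.H (S.lev_x a (by omega)) (S.ne hab hb), S.ucv_x a b (by omega) hb (by omega)]
  have h1 : (a + 1 = b ∨ b + 1 = a) ↔ a + 1 = b := by omega
  simp only [h1]
  split_ifs <;> simp

lemma starry_of (S : Strip P j t m x) {I : Finset (P × P × P)}
    (hstar : ∀ d ∈ I, Star (Df j) d) (hsub : ∀ d ∈ I, sp d ⊆ wt0 j t)
    (hdisj : ∀ d ∈ I, ∀ d' ∈ I, d ≠ d' → Disjoint (sp d) (sp d'))
    (hz : ∀ a b, a < b → b ≤ m →
      Df j {x a, x b} = 0 ∨ ∃ d ∈ I, x a ∈ sp d ∧ x b ∈ sp d) :
    Starry (Df j) (wt0 j t) I := by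
  refine ⟨hstar, hsub, hdisj, ?_⟩
  intro u hu w hw huw hn
  rw [strip_image S, mem_image] at hu hw
  obtain ⟨a, ha, rfl⟩ := hu
  obtain ⟨b, hb, rfl⟩ := hw
  rw [mem_range] at ha hb
  rcases Nat.lt_trichotomy a b with h1 | h1 | h1
  · rcases hz a b h1 (by omega) with h2 | ⟨d, hd, h2, h3⟩
    · exact h2
    · exact absurd ⟨h2, h3⟩ (hn d hd)
  · exact absurd (by rw [h1]) huw
  · rcases hz b a h1 (by omega) with h2 | ⟨d, hd, h2, h3⟩
    · rw [pair_comm]
      exact h2
    · exact absurd ⟨h3, h2⟩ (hn d hd)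

lemma mem_wt (S : Strip P j t m x) {a : ℕ} (ha : a ≤ m) : x a ∈ wt0 j t :=
  mem_wt0.2 ⟨S.lev_x a ha, S.le_t a ha⟩

lemma sp_sub (S : Strip P j t m x) {a b c : ℕ} (ha : a ≤ m) (hb : b ≤ m) (hc : c ≤ m) :
    sp (x a, x b, x c) ⊆ wt0 j t := by
  intro v hv
  rw [mem_sp] at hv
  rcases hv with hv | hv | hv
  · rw [hv]; exact mem_wt S ha
  · rw [hv]; exact mem_wt S hb
  · rw [hv]; exact mem_wt S hc

/-- a good strip -/
theorem res_good (h : Pre P r j) (S : Strip P j t m x)
    (hg : ∀ a b, a < b → b ≤ m → dcv (x a) (x b) = ucv (x a) (x b)) :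
    ∃ I, SRes j (wt0 j t) I := by
  refine ⟨∅, ⟨starry_of S (by simp) (by simp) (by simp) ?_, by simp, by simp⟩⟩
  intro a b hab hb
  left
  rw [Df_pair h.H (S.lev_x a (by omega)) (S.ne hab hb), hg a b hab hb, sub_self]

/-- a rotated strip -/
theorem res_rot (h : Pre P r j) (ht : lev t = 0) (S : Strip P j t m x) (hR : IsRot j m x) :
    ∃ I, SRes j (wt0 j t) I := by
  obtain ⟨hm, -, hu0, hum, hv⟩ := hR
  have e01 : dcv (x 0) (x 1) = 0 := by
    rw [hv 0 1 (by omega) (by omega), if_neg (by omega)]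
  have e0m : dcv (x 0) (x m) = 1 := by
    rw [hv 0 m (by omega) (by omega), if_pos (Or.inl ⟨rfl, rfl⟩)]
  have e12 : dcv (x 1) (x 2) = 1 := by
    rw [hv 1 2 (by omega) (by omega), if_pos (Or.inr ⟨le_rfl, rfl⟩)]
  have em : dcv (x (m - 1)) (x m) = 1 := by
    rw [hv (m - 1) m (by omega) (by omega), if_pos (Or.inr ⟨by omega, by omega⟩)]
  have u01 : ucv (x 0) (x 1) = 1 := by
    rw [S.ucv_x 0 1 (by omega) (by omega) (by omega), if_pos (Or.inl rfl)]
  have u0m : ucv (x 0) (x m) = 0 := by
    rw [S.ucv_x 0 m (by omega) (by omega) (by omega), if_neg (by omega)]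
  have c1 : (uc (x 1)).card = 2 := S.inner 1 (by omega) (by omega)
  have d1 : ((dc (x 1)).card : ℤ) = 1 := by
    rw [← sum_eq_dc h ht S (by omega) c1, S.dcv_mid h (a := 0) (by omega)]
    have e12' : dcv (x (0 + 1)) (x (0 + 2)) = 1 := e12
    have e01' : dcv (x 0) (x (0 + 1)) = 0 := e01
    rw [e12', e01']
    norm_num
  have dm : ((dc (x m)).card : ℤ) = 2 := by
    have h1 := sum_le_dc h ht S (le_refl m)
    rw [S.dcv_last h hm, em, e0m] at h1
    have h2 := dc_card_le h.H (x m)
    push_cast at h1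
    omega
  have hTz : Tz (x 0, x m, x 1) = -4 := by
    unfold Tz
    simp only
    rw [c1, d1, hum, dm, e0m, u0m, e01, u01]
    norm_num
  refine ⟨{(x 0, x m, x 1)}, ⟨starry_of S ?_ ?_ ?_ ?_, ?_, ?_⟩⟩
  · intro d hd
    rw [mem_singleton] at hd
    subst hd
    refine ⟨S.ne (by omega) le_rfl, S.ne (by omega) (by omega), (S.ne (by omega) le_rfl).symm,
      ?_, ?_, ?_⟩
    · show Df j {x 0, x m} = 1
      rw [Df_val h S (by omega) le_rfl, e0m, if_neg (by omega)]
      norm_num
    · show Df j {x 0, x 1} = -1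
      rw [Df_val h S (by omega) (by omega), e01, if_pos rfl]
      norm_num
    · show Df j {x m, x 1} = 0
      rw [pair_comm, Df_val h S (by omega) le_rfl, hv 1 m (by omega) le_rfl]
      by_cases h2 : 1 + 1 = m
      · rw [if_pos (Or.inr ⟨le_rfl, h2⟩), if_pos h2]
        norm_num
      · rw [if_neg (by omega), if_neg h2]
        norm_num
  · intro d hd
    rw [mem_singleton] at hd
    subst hd
    exact sp_sub S (by omega) le_rfl (by omega)
  · intro d hd d' hd' hne
    rw [mem_singleton] at hd hd'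
    exact absurd (hd.trans hd'.symm) hne
  · intro a b hab hb
    by_cases h1 : a = 0 ∧ (b = m ∨ b = 1)
    · right
      refine ⟨_, mem_singleton_self _, ?_, ?_⟩
      · rw [h1.1]
        exact mem_sp.2 (Or.inl rfl)
      · rcases h1.2 with h2 | h2
        · rw [h2]
          exact mem_sp.2 (Or.inr (Or.inl rfl))
        · rw [h2]
          exact mem_sp.2 (Or.inr (Or.inr rfl))
    · left
      rw [Df_val h S hab hb, hv a b hab hb]
      by_cases h2 : a + 1 = b
      · rw [if_pos (Or.inr ⟨by omega, h2⟩), if_pos h2]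
        norm_num
      · rw [if_neg (by omega), if_neg h2]
        norm_num
  · intro d hd
    rw [mem_singleton] at hd
    subst hd
    refine ⟨by rw [hTz]; norm_num, fun h0 => ?_, fun h0 => ?_⟩
    · rw [hTz] at h0
      norm_num at h0
    · rw [hTz] at h0
      norm_num at h0
  · intro d hd d' hd' hne
    rw [mem_singleton] at hd hd'
    exact absurd (hd.trans hd'.symm) hne

/-- value of an end doubling -/
lemma val_dbl (h : Pre P r j) (ht : lev t = 0) (S : Strip P j t m x) (hm : 2 ≤ m)
    (e01 : dcv (x 0) (x 1) = 2) (e12 : dcv (x 1) (x 2) = 0) (e02 : dcv (x 0) (x 2) = 0)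
    (e23 : 3 ≤ m → dcv (x 2) (x 3) = 1) : Val j (x 1, x 0, x 2) := by
  have u01 : ucv (x 1) (x 0) = 1 := by
    rw [S.ucv_x 1 0 (by omega) (by omega) (by omega), if_pos (Or.inr rfl)]
  have u12 : ucv (x 1) (x 2) = 1 := by
    rw [S.ucv_x 1 2 (by omega) (by omega) (by omega), if_pos (Or.inl rfl)]
  have e10 : dcv (x 1) (x 0) = 2 := by
    rw [StB_dcv_comm, e01]
  have c1 : (uc (x 1)).card = 2 := S.inner 1 (by omega) (by omega)
  have d0 : (dc (x 0)).card = 2 := by
    have h1 := dcv_le_dc (x 0) (x 1)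
    have h2 := dc_card_le h.H (x 0)
    omega
  have hu0 : 1 ≤ (uc (x 0)).card := by
    have h1 := uc_nonempty h.H (x := x 0) (by rw [S.lev_x 0 (by omega)]; exact h.hj)
    exact card_pos.2 h1
  by_cases h3 : 3 ≤ m
  · have c2 : (uc (x 2)).card = 2 := S.inner 2 (by omega) (by omega)
    have d2 : ((dc (x 2)).card : ℤ) = 1 := by
      rw [← sum_eq_dc h ht S (by omega) c2, S.dcv_mid h (a := 1) (by omega)]
      have e23' : dcv (x (1 + 1)) (x (1 + 2)) = 1 := e23 h3
      have e12' : dcv (x 1) (x (1 + 1)) = 0 := e12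
      rw [e23', e12']
      norm_num
    have hTz : Tz (x 1, x 0, x 2) = 4 * (1 - ((uc (x 0)).card : ℤ)) := by
      unfold Tz
      simp only
      rw [c2, d2, d0, e10, u01, e12, u12]
      push_cast
      ring
    refine ⟨?_, ?_, ?_⟩
    · rw [hTz]
      have : (1 : ℤ) ≤ (uc (x 0)).card := by exact_mod_cast hu0
      linarith
    · intro h0
      rw [hTz] at h0
      show (uc (x 0)).card = 1
      omega
    · intro _
      exact Or.inl ⟨c1, c2⟩
  · have hm2 : m = 2 := by omega
    subst hm2
    have hs : ∑ b ∈ (range (2 + 1)).erase 2, (dcv (x 2) (x b) : ℤ) = 0 := by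
      rw [S.dcv_last h le_rfl, e02]
      have : dcv (x (2 - 1)) (x 2) = 0 := e12
      rw [this]
      norm_num
    have hz : ∀ w, lev w = j → w ≠ x 2 → dcv (x 2) w = 0 := by
      intro w hw hne
      by_cases hn : w ∈ wt0 j t
      · rw [strip_image S, mem_image] at hn
        obtain ⟨b, hb, rfl⟩ := hn
        rw [mem_range] at hb
        have hb2 : b = 0 ∨ b = 1 ∨ b = 2 := by omega
        rcases hb2 with rfl | rfl | rfl
        · rw [StB_dcv_comm, e02]
        · rw [StB_dcv_comm, e12]
        · exact absurd rfl hne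
      · exact strip_other h ht S (le_refl 2) hw hn
    have hcn : (dc (x 2)).Nonempty := by
      refine dc_nonempty h.H ?_
      rw [S.lev_x 2 le_rfl]
      have := h.hr
      omega
    have c2 : (uc (x 2)).card = 1 := by
      have h1 := uc_nonempty h.H (x := x 2) (by rw [S.lev_x 2 le_rfl]; exact h.hj)
      have h2 := card_pos.2 h1
      have h4 := uc_card_le h.H (x 2)
      by_contra hc
      have h5 : (uc (x 2)).card = 2 := by omega
      have h6 := sum_eq_dc h ht S le_rfl h5
      rw [hs] at h6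
      have h7 := card_pos.2 hcn
      omega
    have d2 := dc_card_le h.H (x 2)
    have hTz : Tz (x 1, x 0, x 2) = 4 * (((dc (x 2)).card : ℤ) - 1 - (uc (x 0)).card) := by
      unfold Tz
      simp only
      rw [c2, d0, e10, u01, e12, u12]
      push_cast
      ring
    refine ⟨?_, ?_, ?_⟩
    · rw [hTz]
      have h1 : (1 : ℤ) ≤ (uc (x 0)).card := by exact_mod_cast hu0
      have h2 : ((dc (x 2)).card : ℤ) ≤ 2 := by exact_mod_cast d2
      linarith
    · intro h0
      rw [hTz] at h0
      show (uc (x 0)).card = 1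
      omega
    · intro _
      exact Or.inr ⟨c2, hz⟩

/-- a doubled strip -/
theorem res_dbl (h : Pre P r j) (ht : lev t = 0) (S : Strip P j t m x) (hR : IsDbl m x) :
    ∃ I, SRes j (wt0 j t) I := by
  obtain ⟨hm, hv⟩ := hR
  have e01 : dcv (x 0) (x 1) = 2 := by
    rw [hv 0 1 (by omega) (by omega), if_pos ⟨rfl, rfl⟩]
  have e12 : dcv (x 1) (x 2) = 0 := by
    rw [hv 1 2 (by omega) (by omega), if_neg (by omega), if_neg (by omega)]
  have e02 : dcv (x 0) (x 2) = 0 := by
    rw [hv 0 2 (by omega) (by omega), if_neg (by omega), if_neg (by omega)]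
  have e23 : 3 ≤ m → dcv (x 2) (x 3) = 1 := by
    intro h3
    rw [hv 2 3 (by omega) (by omega), if_neg (by omega), if_pos ⟨le_rfl, rfl⟩]
  refine ⟨{(x 1, x 0, x 2)}, ⟨starry_of S ?_ ?_ ?_ ?_, ?_, ?_⟩⟩
  · intro d hd
    rw [mem_singleton] at hd
    subst hd
    refine ⟨(S.ne (by omega) (by omega)).symm, S.ne (by omega) (by omega),
      S.ne (by omega) (by omega), ?_, ?_, ?_⟩
    · show Df j {x 1, x 0} = 1
      rw [pair_comm, Df_val h S (by omega) (by omega), e01, if_pos rfl]
      norm_num
    · show Df j {x 1, x 2} = -1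
      rw [Df_val h S (by omega) (by omega), e12, if_pos rfl]
      norm_num
    · show Df j {x 0, x 2} = 0
      rw [Df_val h S (by omega) (by omega), e02, if_neg (by omega)]
      norm_num
  · intro d hd
    rw [mem_singleton] at hd
    subst hd
    exact sp_sub S (by omega) (by omega) (by omega)
  · intro d hd d' hd' hne
    rw [mem_singleton] at hd hd'
    exact absurd (hd.trans hd'.symm) hne
  · intro a b hab hb
    by_cases h1 : b ≤ 2
    · right
      refine ⟨_, mem_singleton_self _, ?_, ?_⟩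
      · rw [mem_sp]
        have h2 : a = 0 ∨ a = 1 := by omega
        rcases h2 with h2 | h2
        · rw [h2]
          exact Or.inr (Or.inl rfl)
        · rw [h2]
          exact Or.inl rfl
      · rw [mem_sp]
        have h2 : b = 1 ∨ b = 2 := by omega
        rcases h2 with h2 | h2
        · rw [h2]
          exact Or.inl rfl
        · rw [h2]
          exact Or.inr (Or.inr rfl)
    · left
      rw [Df_val h S hab hb, hv a b hab hb, if_neg (by omega)]
      by_cases h2 : a + 1 = b
      · rw [if_pos ⟨by omega, h2⟩, if_pos h2]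
        norm_num
      · rw [if_neg (by omega), if_neg h2]
        norm_num
  · intro d hd
    rw [mem_singleton] at hd
    subst hd
    exact val_dbl h ht S hm e01 e12 e02 e23
  · intro d hd d' hd' hne
    rw [mem_singleton] at hd hd'
    exact absurd (hd.trans hd'.symm) hne

/-- a strip doubled at both ends -/
theorem res_dbl2 (h : Pre P r j) (ht : lev t = 0) (S : Strip P j t m x) (hR : IsDbl2 m x) :
    ∃ I, SRes j (wt0 j t) I := by
  obtain ⟨hm, hv⟩ := hR
  have e01 : dcv (x 0) (x 1) = 2 := by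
    rw [hv 0 1 (by omega) (by omega), if_pos (Or.inl ⟨rfl, rfl⟩)]
  have e12 : dcv (x 1) (x 2) = 0 := by
    rw [hv 1 2 (by omega) (by omega), if_neg (by omega), if_neg (by omega)]
  have e02 : dcv (x 0) (x 2) = 0 := by
    rw [hv 0 2 (by omega) (by omega), if_neg (by omega), if_neg (by omega)]
  have e23 : 3 ≤ m → dcv (x 2) (x 3) = 1 := by
    intro h3
    rw [hv 2 3 (by omega) (by omega), if_neg (by omega), if_pos ⟨le_rfl, rfl, by omega⟩]
  have f01 : dcv (x (m - 1)) (x m) = 2 := by
    rw [hv (m - 1) m (by omega) (by omega), if_pos (Or.inr ⟨by omega, rfl⟩)]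
  have f12 : dcv (x (m - 2)) (x (m - 1)) = 0 := by
    rw [hv (m - 2) (m - 1) (by omega) (by omega), if_neg (by omega), if_neg (by omega)]
  have f02 : dcv (x (m - 2)) (x m) = 0 := by
    rw [hv (m - 2) m (by omega) (by omega), if_neg (by omega), if_neg (by omega)]
  have f23 : dcv (x (m - 3)) (x (m - 2)) = 1 := by
    rw [hv (m - 3) (m - 2) (by omega) (by omega), if_neg (by omega),
      if_pos ⟨by omega, by omega, by omega⟩]
  have hV2 : Val j (x (m - 1), x m, x (m - 2)) := by
    have h1 := val_dbl h ht S.rev (by omega) (by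
      show dcv (x (m - 0)) (x (m - 1)) = 2
      rw [Nat.sub_zero, StB_dcv_comm, f01]) (by
      show dcv (x (m - 1)) (x (m - 2)) = 0
      rw [StB_dcv_comm, f12]) (by
      show dcv (x (m - 0)) (x (m - 2)) = 0
      rw [Nat.sub_zero, StB_dcv_comm, f02]) (fun _ => by
      show dcv (x (m - 2)) (x (m - 3)) = 1
      rw [StB_dcv_comm, f23])
    exact h1
  have hne : ∀ a b, a ≤ m → b ≤ m → a ≠ b → x a ≠ x b := by
    intro a b ha hb hab he
    exact hab (S.inj a b ha hb he)
  refine ⟨{(x 1, x 0, x 2), (x (m - 1), x m, x (m - 2))}, ⟨starry_of S ?_ ?_ ?_ ?_, ?_, ?_⟩⟩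
  · intro d hd
    rw [mem_insert, mem_singleton] at hd
    rcases hd with rfl | rfl
    · refine ⟨(S.ne (by omega) (by omega)).symm, S.ne (by omega) (by omega),
        S.ne (by omega) (by omega), ?_, ?_, ?_⟩
      · show Df j {x 1, x 0} = 1
        rw [pair_comm, Df_val h S (by omega) (by omega), e01, if_pos rfl]
        norm_num
      · show Df j {x 1, x 2} = -1
        rw [Df_val h S (by omega) (by omega), e12, if_pos rfl]
        norm_num
      · show Df j {x 0, x 2} = 0
        rw [Df_val h S (by omega) (by omega), e02, if_neg (by omega)]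
        norm_num
    · refine ⟨S.ne (by omega) (by omega), (S.ne (by omega) (by omega)).symm,
        (S.ne (by omega) (by omega)).symm, ?_, ?_, ?_⟩
      · show Df j {x (m - 1), x m} = 1
        rw [Df_val h S (by omega) (by omega), f01, if_pos (by omega)]
        norm_num
      · show Df j {x (m - 1), x (m - 2)} = -1
        rw [pair_comm, Df_val h S (by omega) (by omega), f12, if_pos (by omega)]
        norm_num
      · show Df j {x m, x (m - 2)} = 0
        rw [pair_comm, Df_val h S (by omega) (by omega), f02, if_neg (by omega)]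
        norm_num
  · intro d hd
    rw [mem_insert, mem_singleton] at hd
    rcases hd with rfl | rfl
    · exact sp_sub S (by omega) (by omega) (by omega)
    · exact sp_sub S (by omega) (by omega) (by omega)
  · have key : Disjoint (sp (x 1, x 0, x 2)) (sp (x (m - 1), x m, x (m - 2))) := by
      rw [disjoint_left]
      intro v hv hv'
      rw [mem_sp] at hv hv'
      rcases hv with hv | hv | hv <;> rcases hv' with hv' | hv' | hv' <;>
        exact absurd (hv.symm.trans hv') (hne _ _ (by omega) (by omega) (by omega))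
    intro d hd d' hd' hne'
    rw [mem_insert, mem_singleton] at hd hd'
    rcases hd with rfl | rfl <;> rcases hd' with rfl | rfl
    · exact absurd rfl hne'
    · exact key
    · exact key.symm
    · exact absurd rfl hne'
  · intro a b hab hb
    by_cases h1 : b ≤ 2
    · right
      refine ⟨_, mem_insert_self _ _, ?_, ?_⟩
      · rw [mem_sp]
        have h2 : a = 0 ∨ a = 1 := by omega
        rcases h2 with h2 | h2
        · rw [h2]
          exact Or.inr (Or.inl rfl)
        · rw [h2]
          exact Or.inl rfl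
      · rw [mem_sp]
        have h2 : b = 1 ∨ b = 2 := by omega
        rcases h2 with h2 | h2
        · rw [h2]
          exact Or.inl rfl
        · rw [h2]
          exact Or.inr (Or.inr rfl)
    · by_cases h1' : m - 2 ≤ a
      · right
        refine ⟨_, mem_insert_of_mem (mem_singleton_self _), ?_, ?_⟩
        · rw [mem_sp]
          have h2 : a = m - 2 ∨ a = m - 1 := by omega
          rcases h2 with h2 | h2
          · rw [h2]
            exact Or.inr (Or.inr rfl)
          · rw [h2]
            exact Or.inl rfl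
        · rw [mem_sp]
          have h2 : b = m - 1 ∨ b = m := by omega
          rcases h2 with h2 | h2
          · rw [h2]
            exact Or.inl rfl
          · rw [h2]
            exact Or.inr (Or.inl rfl)
      · left
        rw [Df_val h S hab hb, hv a b hab hb, if_neg (by omega)]
        by_cases h2 : a + 1 = b
        · rw [if_pos ⟨by omega, h2, by omega⟩, if_pos h2]
          norm_num
        · rw [if_neg (by omega), if_neg h2]
          norm_num
  · intro d hd
    rw [mem_insert, mem_singleton] at hd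
    rcases hd with rfl | rfl
    · exact val_dbl h ht S (by omega) e01 e12 e02 e23
    · exact hV2
  · intro d hd d' hd' hne'
    rw [mem_insert, mem_singleton] at hd hd'
    rcases hd with rfl | rfl <;> rcases hd' with rfl | rfl
    · exact absurd rfl hne'
    · show dcv (x 0) (x (m - 2)) = 0 ∧ ucv (x 0) (x (m - 2)) = 0
      refine ⟨?_, ?_⟩
      · rw [hv 0 (m - 2) (by omega) (by omega), if_neg (by omega), if_neg (by omega)]
      · rw [S.ucv_x 0 (m - 2) (by omega) (by omega) (by omega), if_neg (by omega)]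
    · show dcv (x m) (x 2) = 0 ∧ ucv (x m) (x 2) = 0
      refine ⟨?_, ?_⟩
      · rw [StB_dcv_comm, hv 2 m (by omega) (by omega), if_neg (by omega), if_neg (by omega)]
      · rw [S.ucv_x m 2 (by omega) (by omega) (by omega), if_neg (by omega)]
    · exact absurd rfl hne'

/-- the stars of a strip -/
theorem res_strip (h : Pre P r j) (ht : lev t = 0) : ∃ I, SRes j (wt0 j t) I := by
  obtain ⟨m, x, S⟩ := h.strip ht
  have hmp := mp_strip h (mem_lv.2 ht)
  rw [strip_image S] at hmp
  rcases S.cases h ht hmp with h1 | h1 | h1 | h1 | h1 | h1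
  · exact res_good h S h1
  · exact res_rot h ht S h1
  · exact res_rot h ht S.rev h1
  · exact res_dbl h ht S h1
  · exact res_dbl h ht S.rev h1
  · exact res_dbl2 h ht S h1

/-- the stars of the first bad level -/
theorem pre_stars (h : Pre P r j) : ∃ I : Finset (P × P × P), Starry (Df j) (lv P j) I ∧
    (∀ d ∈ I, Val j d) ∧
    ∀ d ∈ I, ∀ d' ∈ I, d ≠ d' → dcv d.2.1 d'.2.2 = 0 ∧ ucv d.2.1 d'.2.2 = 0 := by
  classical
  have h1 : ∀ t : P, ∃ I, t ∈ lv P 0 → SRes j (wt0 j t) I := by
    intro t
    by_cases ht : t ∈ lv P 0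
    · obtain ⟨I, hI⟩ := res_strip h (mem_lv.1 ht)
      exact ⟨I, fun _ => hI⟩
    · exact ⟨∅, fun h2 => absurd h2 ht⟩
  choose I hI using h1
  refine ⟨(lv P 0).biUnion I, ?_, ?_, ?_⟩
  · rw [lv_eq j]
    refine glue (lv P 0) (wt0 j) I (fun t ht => (hI t ht).starry) ?_ ?_
    · intro t ht t' ht' hne
      exact wt0_disj h ht ht' hne
    · intro t ht t' ht' hne u hu w hw
      exact wt0_zero h ht ht' hne hu hw
  · intro d hd
    obtain ⟨t, ht, h2⟩ := mem_biUnion.1 hd
    exact (hI t ht).val d h2
  · intro d hd d' hd' hne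
    obtain ⟨t, ht, h2⟩ := mem_biUnion.1 hd
    obtain ⟨t', ht', h2'⟩ := mem_biUnion.1 hd'
    by_cases h3 : t = t'
    · subst h3
      exact (hI t ht).far d h2 d' h2' hne
    · exact wt0_cross h ht ht' h3 ((hI t ht).starry.mem_a h2) ((hI t' ht').starry.mem_b h2')

end Pool.Agent.GaussPoset.St
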