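import Pool.Agent.W_448st_h88.MgG

/-! From sums over pairs to ordered sums (MP_448cb3_co). -/

namespace Pool.Agent.GaussPoset.St

set_option linter.unusedSectionVars false

open Finset Polynomial

variable {α : Type*} [DecidableEq α] {A : Finset α → ℤ} {V : Finset α}

/-- the first order identity, ordered form -/
theorem h6_of {B th : Finset α → ℤ} {sg : α → ℤ} {f : Finset α → ℤ} {g : α → ℤ}
    (hf : ∀ T, f T = Fm A V T)
    (hg : ∀ v ∈ V, g v = ∑ S ∈ (V.erase v).powerset, (∏ a ∈ S, A {v, a}) * f (insert v S))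
    (h : ∑ e ∈ V.powersetCard 2, B e * (∑ v ∈ e, f {v} + f e - 3) +
      2 * ∑ v ∈ V, sg v * (f {v} - 1) - 2 * ∑ v ∈ V, (g v - 1) +
      2 * ∑ e ∈ V.powersetCard 2, th e * f e = 0) :
    ∑ u ∈ V, ∑ w ∈ V.erase u, B {u, w} * (Fm A V {u, w} + Fm A V {u} + Fm A V {w} - 3) +
      2 * ∑ u ∈ V, ∑ w ∈ V.erase u, th {u, w} * Fm A V {u, w} =
      4 * ∑ v ∈ V, (gg A V v - 1) - 4 * ∑ v ∈ V, sg v * (Fm A V {v} - 1) := by
  have h1 : 2 * ∑ e ∈ V.powersetCard 2, B e * (∑ v ∈ e, f {v} + f e - 3) =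
      ∑ u ∈ V, ∑ w ∈ V.erase u, B {u, w} * (Fm A V {u, w} + Fm A V {u} + Fm A V {w} - 3) := by
    rw [two_mul_pairs]
    unfold P2
    refine sum_congr rfl (fun u _ => sum_congr rfl (fun w hw => ?_))
    beta_reduce
    rw [sum_pair (ne_of_mem_erase hw).symm, hf, hf, hf]
    ring
  have h2 : 2 * ∑ e ∈ V.powersetCard 2, th e * f e =
      ∑ u ∈ V, ∑ w ∈ V.erase u, th {u, w} * Fm A V {u, w} := by
    rw [two_mul_pairs]
    unfold P2
    refine sum_congr rfl (fun u _ => sum_congr rfl (fun w _ => ?_))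
    beta_reduce
    rw [hf]
  have h3 : ∑ v ∈ V, (g v - 1) = ∑ v ∈ V, (gg A V v - 1) := by
    refine sum_congr rfl (fun v hv => ?_)
    rw [hg v hv]
    unfold gg
    congr 1
    refine sum_congr rfl (fun S _ => ?_)
    rw [hf]
  have h4 : ∑ v ∈ V, sg v * (f {v} - 1) = ∑ v ∈ V, sg v * (Fm A V {v} - 1) := by
    refine sum_congr rfl (fun v _ => ?_)
    rw [hf]
  rw [h3, h4] at h
  linarith

end Pool.Agent.GaussPoset.St
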