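import Pool.Agent.W_448st_h88.MgF

/-! The matching polynomial of every strip is one (MP_448cb3_co). -/

namespace Pool.Agent.GaussPoset.St

set_option linter.unusedSectionVars false

open Finset Polynomial Win

section gen

variable {α : Type*} [DecidableEq α] {A : Finset α → ℤ} {V T : Finset α}

/-- the values at `-1` as sums over matchings -/
theorem Fm_eq (A : Finset α → ℤ) (V T : Finset α) :
    Fm A V T = ∑ M ∈ MS (V \ T), ∏ e ∈ M, (-A e) := by
  unfold Fm mp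
  rw [eval_finsetSum]
  refine sum_congr rfl (fun M _ => ?_)
  rw [eval_prod]
  refine prod_congr rfl (fun e _ => ?_)
  rw [eval_mul, eval_C, eval_X]
  ring

/-- factors with constant coefficient one of a product equal to one are one -/
lemma prod_one {ι : Type*} [DecidableEq ι] (s : Finset ι) (p : ι → ℤ[X])
    (h0 : ∀ i ∈ s, (p i).coeff 0 = 1) (h : ∏ i ∈ s, p i = 1) : ∀ i ∈ s, p i = 1 := by
  intro i hi
  rw [← mul_prod_erase s p hi] at h
  exact eq_one_of_mul h (h0 i hi)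

/-- gluing disjoint stars -/
theorem glue {ι : Type*} [DecidableEq ι] (s : Finset ι) (W : ι → Finset α)
    (I : ι → Finset (α × α × α)) (hI : ∀ t ∈ s, Starry A (W t) (I t))
    (hd : ∀ t ∈ s, ∀ t' ∈ s, t ≠ t' → Disjoint (W t) (W t'))
    (h0 : ∀ t ∈ s, ∀ t' ∈ s, t ≠ t' → ∀ u ∈ W t, ∀ w ∈ W t', A {u, w} = 0) :
    Starry A (s.biUnion W) (s.biUnion I) := by
  refine ⟨?_, ?_, ?_, ?_⟩
  · intro d hd'
    obtain ⟨t, ht, h1⟩ := mem_biUnion.1 hd'
    exact (hI t ht).star d h1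
  · intro d hd'
    obtain ⟨t, ht, h1⟩ := mem_biUnion.1 hd'
    exact ((hI t ht).sub d h1).trans (subset_biUnion_of_mem W ht)
  · intro d hd1 d' hd2 hne
    obtain ⟨t, ht, h1⟩ := mem_biUnion.1 hd1
    obtain ⟨t', ht', h1'⟩ := mem_biUnion.1 hd2
    by_cases h : t = t'
    · subst h
      exact (hI t ht).disj d h1 d' h1' hne
    · exact disjoint_of_subset_left ((hI t ht).sub d h1)
        (disjoint_of_subset_right ((hI t' ht').sub d' h1') (hd t ht t' ht' h))
  · intro u hu w hw huw hn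
    obtain ⟨t, ht, h1⟩ := mem_biUnion.1 hu
    obtain ⟨t', ht', h1'⟩ := mem_biUnion.1 hw
    by_cases h : t = t'
    · subst h
      refine (hI t ht).zero u h1 w h1' huw ?_
      intro d hd'
      exact hn d (mem_biUnion.2 ⟨t, ht, hd'⟩)
    · exact h0 t ht t' ht' h u h1 w h1'

end gen

universe u

variable {P : Type u} [Fintype P] [PartialOrder P] [DecidableEq P] {r j : ℕ}

/-- the matching polynomial of a level is one -/
theorem mp_level (H : Gr P r) {i : ℕ} (hi : i ≤ r) : mp (Df i) (lv P i) = 1 := by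
  refine mp_eq_one ?_
  intro k hk
  rw [← kk_match H hi hk]
  refine sum_congr ?_ (fun _ _ => rfl)
  ext M
  rw [mem_filter, mem_MS, mem_MM]
  constructor
  · rintro ⟨⟨h1, h2⟩, h3⟩
    exact ⟨h1, h3, fun S hS T hT hne => h2 hS hT hne⟩
  · rintro ⟨h1, h2, h3⟩
    exact ⟨⟨h1, fun S hS T hT hne => h3 S hS T hT hne⟩, h2⟩

open Classical in
/-- the part of level `i` below `t` -/
noncomputable def wt0 (i : ℕ) (t : P) : Finset P := (lv P i).filter (fun v => v ≤ t)

lemma mem_wt0 {i : ℕ} {t v : P} : v ∈ wt0 i t ↔ lev v = i ∧ v ≤ t := by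
  classical
  unfold wt0
  rw [mem_filter, mem_lv]

lemma lv_eq (i : ℕ) : lv P i = (lv P 0).biUnion (wt0 i) := by
  ext v
  rw [mem_biUnion, mem_lv]
  constructor
  · intro hv
    obtain ⟨t, ht, ht2⟩ := exists_above' (x := v) (j := 0) (Nat.zero_le _)
    exact ⟨t, mem_lv.2 ht2, mem_wt0.2 ⟨hv, ht⟩⟩
  · rintro ⟨t, _, ht2⟩
    exact (mem_wt0.1 ht2).1

lemma wt0_disj (h : Pre P r j) {t t' : P} (ht : t ∈ lv P 0) (ht' : t' ∈ lv P 0) (hne : t ≠ t') :
    Disjoint (wt0 j t) (wt0 j t') := by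
  rw [disjoint_left]
  intro v hv hv'
  rw [mem_wt0] at hv hv'
  exact hne (h.top_eq hv.1.le (mem_lv.1 ht) (mem_lv.1 ht') hv.2 hv'.2)

lemma wt0_cross (h : Pre P r j) {t t' : P} (ht : t ∈ lv P 0) (ht' : t' ∈ lv P 0) (hne : t ≠ t')
    {v v' : P} (hv : v ∈ wt0 j t) (hv' : v' ∈ wt0 j t') : dcv v v' = 0 ∧ ucv v v' = 0 := by
  rw [mem_wt0] at hv hv'
  exact h.cross hv.1 hv'.1 (mem_lv.1 ht) (mem_lv.1 ht') hv.2 hv'.2 hne

lemma wt0_zero (h : Pre P r j) {t t' : P} (ht : t ∈ lv P 0) (ht' : t' ∈ lv P 0) (hne : t ≠ t')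
    {v v' : P} (hv : v ∈ wt0 j t) (hv' : v' ∈ wt0 j t') : Df j {v, v'} = 0 := by
  have h1 := wt0_cross h ht ht' hne hv hv'
  have h2 : v ≠ v' := by
    rintro rfl
    exact disjoint_left.1 (wt0_disj h ht ht' hne) hv hv'
  rw [Df_pair h.H (mem_wt0.1 hv).1 h2, h1.1, h1.2]
  simp

/-- the matching polynomial of every strip is one -/
theorem mp_strip (h : Pre P r j) {t : P} (ht : t ∈ lv P 0) : mp (Df j) (wt0 j t) = 1 := by
  have h1 : mp (Df j) (lv P j) = 1 := mp_level h.H (by have := h.hr; omega)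
  rw [lv_eq j, mp_biUnion (lv P 0) (wt0 j)] at h1
  · exact prod_one _ _ (fun i _ => coeff_zero_mp) h1 t ht
  · intro t ht t' ht' hne
    exact wt0_disj h ht ht' hne
  · intro t ht t' ht' hne u hu w hw
    exact wt0_zero h ht ht' hne hu hw

lemma strip_image {t : P} {m : ℕ} {x : ℕ → P} (S : Strip P j t m x) :
    wt0 j t = (range (m + 1)).image x := by
  ext v
  rw [mem_wt0, mem_image]
  constructor
  · rintro ⟨h1, h2⟩
    obtain ⟨a, ha, hx⟩ := S.surj v h1 h2
    exact ⟨a, mem_range.2 (by omega), hx⟩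
  · rintro ⟨a, ha, rfl⟩
    rw [mem_range] at ha
    exact ⟨S.lev_x a (by omega), S.le_t a (by omega)⟩

end Pool.Agent.GaussPoset.St
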