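import Mathlib

/-! Signed matching polynomials (MP_448cb3_co). -/

namespace Pool.Agent.GaussPoset.St

set_option linter.unusedSectionVars false

open Finset Polynomial

section mat

variable {α : Type*} [DecidableEq α]

/-- matchings of `V` -/
noncomputable def MS (V : Finset α) : Finset (Finset (Finset α)) := by
  classical exact Finset.filter (fun M : Finset (Finset α) =>
    (M : Set (Finset α)).PairwiseDisjoint id) (V.powersetCard 2).powerset

lemma mem_MS {V : Finset α} {M : Finset (Finset α)} :
    M ∈ MS V ↔ (∀ T ∈ M, T ⊆ V ∧ T.card = 2) ∧ (M : Set (Finset α)).PairwiseDisjoint id := by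
  classical
  unfold MS
  rw [mem_filter, mem_powerset]
  constructor
  · rintro ⟨h1, h2⟩
    exact ⟨fun T hT => mem_powersetCard.1 (h1 hT), h2⟩
  · rintro ⟨h1, h2⟩
    exact ⟨fun T hT => mem_powersetCard.2 (h1 T hT), h2⟩

/-- the signed matching polynomial of `V` with the weights `A` -/
noncomputable def mp (A : Finset α → ℤ) (V : Finset α) : ℤ[X] :=
  ∑ M ∈ MS V, ∏ T ∈ M, (C (A T) * X)

variable {A : Finset α → ℤ} {V W : Finset α} {v : α}

lemma MS_empty : MS (∅ : Finset α) = {∅} := by
  ext M
  rw [mem_MS, mem_singleton]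
  constructor
  · rintro ⟨h, _⟩
    rw [eq_empty_iff_forall_notMem]
    intro T hT
    have h1 := (h T hT).1
    have h2 := (h T hT).2
    rw [subset_empty] at h1
    rw [h1] at h2
    simp at h2
  · rintro rfl
    simp

@[simp] lemma mp_empty : mp A ∅ = 1 := by
  unfold mp
  rw [MS_empty, sum_singleton, prod_empty]

lemma MS_mono (h : V ⊆ W) : MS V ⊆ MS W := by
  intro M hM
  rw [mem_MS] at hM ⊢
  exact ⟨fun T hT => ⟨(hM.1 T hT).1.trans h, (hM.1 T hT).2⟩, hM.2⟩

lemma MS_filter (hv : v ∉ V) : (MS (insert v V)).filter (fun M => ∀ T ∈ M, v ∉ T) = MS V := by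
  ext M
  rw [mem_filter, mem_MS, mem_MS]
  constructor
  · rintro ⟨⟨h1, h2⟩, h3⟩
    refine ⟨fun T hT => ⟨?_, (h1 T hT).2⟩, h2⟩
    intro x hx
    rcases mem_insert.1 ((h1 T hT).1 hx) with rfl | h
    · exact absurd hx (h3 T hT)
    · exact h
  · rintro ⟨h1, h2⟩
    refine ⟨⟨fun T hT => ⟨(h1 T hT).1.trans (subset_insert _ _), (h1 T hT).2⟩, h2⟩, ?_⟩
    intro T hT hvT
    exact hv ((h1 T hT).1 hvT)

/-- recursion at a vertex -/
theorem mp_insert (A : Finset α → ℤ) (hv : v ∉ V) :
    mp A (insert v V) = mp A V + ∑ u ∈ V, C (A {v, u}) * X * mp A (V.erase u) := by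
  classical
  unfold mp
  rw [← sum_filter_add_sum_filter_not (MS (insert v V)) (fun M => ∀ T ∈ M, v ∉ T)]
  congr 1
  · rw [MS_filter hv]
  · simp_rw [mul_sum]
    rw [sum_sigma']
    symm
    have hnot : ∀ u ∈ V, ∀ M ∈ MS (V.erase u), ({v, u} : Finset α) ∉ M := by
      intro u hu M hM h
      have h1 := ((mem_MS.1 hM).1 _ h).1 (mem_insert_self v {u})
      exact hv (mem_of_mem_erase h1)
    refine Finset.sum_nbij (fun p => insert ({v, p.1} : Finset α) p.2) ?_ ?_ ?_ ?_
    · rintro ⟨u, M⟩ hp
      rw [mem_sigma] at hp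
      obtain ⟨hu, hM⟩ := hp
      simp only at hu hM
      show insert ({v, u} : Finset α) M ∈ _
      rw [mem_filter, mem_MS]
      have hM' := mem_MS.1 hM
      have hvu : v ≠ u := fun h => hv (h ▸ hu)
      refine ⟨⟨?_, ?_⟩, ?_⟩
      · intro T hT
        rcases mem_insert.1 hT with rfl | hT
        · refine ⟨?_, card_pair hvu⟩
          intro x hx
          rcases mem_insert.1 hx with rfl | hx
          · exact mem_insert_self _ _
          · rw [mem_singleton.1 hx]
            exact mem_insert_of_mem hu
        · refine ⟨((hM'.1 T hT).1.trans (erase_subset _ _)).trans (subset_insert _ _),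
            (hM'.1 T hT).2⟩
      · rw [coe_insert]
        refine hM'.2.insert ?_
        intro T hT _
        show Disjoint ({v, u} : Finset α) T
        rw [disjoint_left]
        intro x hx hxT
        have h3 := (hM'.1 T hT).1 hxT
        rcases mem_insert.1 hx with rfl | hx
        · exact hv (mem_of_mem_erase h3)
        · rw [mem_singleton.1 hx] at h3
          exact (notMem_erase u V) h3
      · intro h
        exact h _ (mem_insert_self _ _) (mem_insert_self _ _)
    · rintro ⟨u, M⟩ hp ⟨u', M'⟩ hq h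
      rw [mem_coe, mem_sigma] at hp hq
      obtain ⟨hu, hM⟩ := hp
      obtain ⟨hu', hM'⟩ := hq
      simp only at hu hM hu' hM' h
      have hvu : v ≠ u := fun h => hv (h ▸ hu)
      have h1 : ({v, u} : Finset α) ∈ insert ({v, u'} : Finset α) M' := by
        rw [← h]
        exact mem_insert_self _ _
      have h2 : ({v, u} : Finset α) = {v, u'} := by
        rcases mem_insert.1 h1 with h3 | h3
        · exact h3
        · exact absurd (((mem_MS.1 hM').1 _ h3).1 (mem_insert_self v {u}))
            (fun h4 => hv (mem_of_mem_erase h4))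
      have h3 : u = u' := by
        have h4 : u ∈ ({v, u'} : Finset α) := by
          rw [← h2]
          exact mem_insert_of_mem (mem_singleton_self u)
        rcases mem_insert.1 h4 with h5 | h5
        · exact absurd h5.symm hvu
        · exact mem_singleton.1 h5
      subst h3
      have h4 : M = M' := by
        rw [← erase_insert (hnot u hu M hM), ← erase_insert (hnot u hu' M' hM'), h]
      rw [h4]
    · intro M hM
      rw [mem_coe, mem_filter, mem_MS] at hM
      obtain ⟨⟨h1, h2⟩, h3⟩ := hM
      push Not at h3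
      obtain ⟨T, hT, hvT⟩ := h3
      obtain ⟨hTV, hT2⟩ := h1 T hT
      have h4 : (T.erase v).card = 1 := by rw [card_erase_of_mem hvT, hT2]
      obtain ⟨u, hu⟩ := card_eq_one.1 h4
      have hTe : T = {v, u} := by
        rw [← insert_erase hvT, hu]
      have huT : u ∈ T.erase v := by
        rw [hu]
        exact mem_singleton_self u
      have huV : u ∈ V := by
        rcases mem_insert.1 (hTV (mem_of_mem_erase huT)) with h5 | h5
        · exact absurd h5 (ne_of_mem_erase huT)
        · exact h5
      refine ⟨⟨u, M.erase T⟩, ?_, ?_⟩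
      · rw [mem_coe, mem_sigma]
        refine ⟨huV, mem_MS.2 ⟨?_, ?_⟩⟩
        · intro S hS
          rw [mem_erase] at hS
          refine ⟨?_, (h1 S hS.2).2⟩
          have hd : Disjoint S T := h2 (mem_coe.2 hS.2) (mem_coe.2 hT) hS.1
          intro x hx
          have h6 : x ∉ T := disjoint_left.1 hd hx
          rw [mem_erase]
          refine ⟨?_, ?_⟩
          · rintro rfl
            exact h6 (mem_of_mem_erase huT)
          · rcases mem_insert.1 ((h1 S hS.2).1 hx) with rfl | h7
            · exact absurd hvT h6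
            · exact h7
        · intro a ha b hb hab
          rw [mem_coe, mem_erase] at ha hb
          exact h2 (mem_coe.2 ha.2) (mem_coe.2 hb.2) hab
      · show insert ({v, u} : Finset α) (M.erase T) = M
        rw [← hTe, insert_erase hT]
    · rintro ⟨u, M⟩ hp
      rw [mem_sigma] at hp
      obtain ⟨hu, hM⟩ := hp
      simp only at hu hM
      show C (A {v, u}) * X * ∏ T ∈ M, (C (A T) * X) = ∏ T ∈ insert ({v, u} : Finset α) M, _
      rw [prod_insert (hnot u hu M hM)]

lemma mp_singleton : mp A {v} = 1 := by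
  have h := mp_insert A (V := ∅) (v := v) (by simp)
  rw [show (insert v ∅ : Finset α) = {v} from rfl] at h
  rw [h]
  simp

/-- an isolated vertex can be removed -/
lemma mp_isol (hv : v ∉ V) (h : ∀ u ∈ V, A {v, u} = 0) : mp A (insert v V) = mp A V := by
  rw [mp_insert A hv]
  have h1 : ∑ u ∈ V, C (A {v, u}) * X * mp A (V.erase u) = 0 := by
    refine sum_eq_zero (fun u hu => ?_)
    rw [h u hu]
    simp
  rw [h1, add_zero]

/-- the polynomial of a disjoint union without crossing weights is a product -/
theorem mp_union (hVW : Disjoint V W) (h : ∀ u ∈ V, ∀ w ∈ W, A {u, w} = 0) :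
    mp A (V ∪ W) = mp A V * mp A W := by
  suffices H : ∀ n, ∀ V : Finset α, V.card ≤ n → Disjoint V W → (∀ u ∈ V, ∀ w ∈ W, A {u, w} = 0) →
      mp A (V ∪ W) = mp A V * mp A W from H _ V le_rfl hVW h
  intro n
  induction n with
  | zero =>
    intro V hV _ _
    rw [Nat.le_zero, card_eq_zero] at hV
    rw [hV, empty_union, mp_empty, one_mul]
  | succ n ih =>
    intro V hV hd h
    by_cases hV0 : V = ∅
    · rw [hV0, empty_union, mp_empty, one_mul]
    · obtain ⟨v, hv⟩ := nonempty_iff_ne_empty.2 hV0
      have hVi : V = insert v (V.erase v) := (insert_erase hv).symm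
      set V' := V.erase v with hV'
      have hvV' : v ∉ V' := notMem_erase v V
      have hcard : V'.card ≤ n := by
        rw [hV', card_erase_of_mem hv]
        omega
      have hd' : Disjoint V' W := disjoint_of_subset_left (erase_subset _ _) hd
      have hvW : v ∉ W := disjoint_left.1 hd hv
      have h' : ∀ u ∈ V', ∀ w ∈ W, A {u, w} = 0 := fun u hu w hw => h u (mem_of_mem_erase hu) w hw
      have e1 : V ∪ W = insert v (V' ∪ W) := by rw [← insert_union, ← hVi]
      have hvU : v ∉ V' ∪ W := by
        rw [mem_union]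
        exact fun h => h.elim hvV' hvW
      rw [e1, mp_insert A hvU, ih V' hcard hd' h']
      rw [sum_union hd']
      have e2 : ∑ u ∈ W, C (A {v, u}) * X * mp A ((V' ∪ W).erase u) = 0 := by
        refine sum_eq_zero (fun u hu => ?_)
        rw [h v hv u hu]
        simp
      have e3 : ∀ u ∈ V', mp A ((V' ∪ W).erase u) = mp A (V'.erase u) * mp A W := by
        intro u hu
        have huW : u ∉ W := disjoint_left.1 hd' hu
        have e4 : (V' ∪ W).erase u = V'.erase u ∪ W := by
          rw [erase_union_distrib, erase_eq_of_notMem huW]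
        rw [e4]
        refine ih _ ?_ (disjoint_of_subset_left (erase_subset _ _) hd')
          (fun a ha w hw => h' a (mem_of_mem_erase ha) w hw)
        exact (card_le_card (erase_subset _ _)).trans hcard
      have e5 : mp A V = mp A V' + ∑ u ∈ V', C (A {v, u}) * X * mp A (V'.erase u) := by
        rw [← mp_insert A hvV', ← hVi]
      have e6 : ∑ u ∈ V', C (A {v, u}) * X * mp A ((V' ∪ W).erase u) =
          ∑ u ∈ V', (C (A {v, u}) * X * mp A (V'.erase u)) * mp A W := by
        refine sum_congr rfl (fun u hu => ?_)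
        rw [e3 u hu, ← mul_assoc]
      rw [e2, add_zero, e5, add_mul, sum_mul, e6]

/-- product over a family of disjoint sets without crossing weights -/
theorem mp_biUnion {ι : Type*} [DecidableEq ι] (I : Finset ι) (W : ι → Finset α)
    (hd : ∀ i ∈ I, ∀ j ∈ I, i ≠ j → Disjoint (W i) (W j))
    (h : ∀ i ∈ I, ∀ j ∈ I, i ≠ j → ∀ u ∈ W i, ∀ w ∈ W j, A {u, w} = 0) :
    mp A (I.biUnion W) = ∏ i ∈ I, mp A (W i) := by
  induction I using Finset.induction_on with
  | empty => rw [biUnion_empty, mp_empty, prod_empty]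
  | insert a s ha ih =>
    have hne : ∀ i ∈ s, a ≠ i := fun i hi h => ha (h ▸ hi)
    rw [biUnion_insert, prod_insert ha, mp_union, ih]
    · exact fun i hi j hj => hd i (mem_insert_of_mem hi) j (mem_insert_of_mem hj)
    · exact fun i hi j hj => h i (mem_insert_of_mem hi) j (mem_insert_of_mem hj)
    · rw [disjoint_biUnion_right]
      exact fun i hi => hd a (mem_insert_self _ _) i (mem_insert_of_mem hi) (hne i hi)
    · intro u hu w hw
      obtain ⟨i, hi, hwi⟩ := mem_biUnion.1 hw
      exact h a (mem_insert_self _ _) i (mem_insert_of_mem hi) (hne i hi) u hu w hwi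

/-- no weights: the polynomial is `1` -/
lemma mp_zero (h : ∀ u ∈ V, ∀ w ∈ V, u ≠ w → A {u, w} = 0) : mp A V = 1 := by
  induction V using Finset.induction_on with
  | empty => exact mp_empty
  | insert a s ha ih =>
    have h1 : ∀ u ∈ s, A {a, u} = 0 := by
      intro u hu
      refine h a (mem_insert_self _ _) u (mem_insert_of_mem hu) ?_
      rintro rfl
      exact ha hu
    have h2 : mp A s = 1 := ih (fun u hu w hw huw =>
      h u (mem_insert_of_mem hu) w (mem_insert_of_mem hw) huw)
    rw [mp_isol ha h1, h2]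

/-- the constant coefficient is `1` -/
lemma coeff_zero_mp : (mp A V).coeff 0 = 1 := by
  unfold mp
  rw [finsetSum_coeff]
  have h1 : ∀ M ∈ MS V, M ≠ ∅ → (∏ T ∈ M, (C (A T) * X)).coeff 0 = 0 := by
    intro M _ hM
    obtain ⟨T, hT⟩ := nonempty_iff_ne_empty.2 hM
    rw [← mul_prod_erase M _ hT, mul_coeff_zero]
    simp
  rw [sum_eq_single ∅]
  · simp
  · intro M hM hne
    exact h1 M hM hne
  · intro h
    exfalso
    apply h
    rw [mem_MS]
    simp

/-- coefficients: sums over the matchings with `k` edges -/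
lemma coeff_mp (k : ℕ) :
    (mp A V).coeff k = ∑ M ∈ (MS V).filter (fun M => M.card = k), ∏ T ∈ M, A T := by
  unfold mp
  rw [finsetSum_coeff, sum_filter]
  refine sum_congr rfl (fun M _ => ?_)
  have h1 : ∏ T ∈ M, (C (A T) * X) = C (∏ T ∈ M, A T) * (X : ℤ[X]) ^ M.card := by
    rw [prod_mul_distrib, prod_const, map_prod]
  rw [h1, coeff_C_mul, coeff_X_pow]
  by_cases h : M.card = k
  · simp [h]
  · have h' : ¬ k = M.card := fun h2 => h h2.symm
    simp [h, h']

lemma mp_eq_one (h : ∀ k, 1 ≤ k → ∑ M ∈ (MS V).filter (fun M => M.card = k), ∏ T ∈ M, A T = 0) :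
    mp A V = 1 := by
  ext k
  rcases Nat.eq_zero_or_pos k with rfl | hk
  · rw [coeff_zero_mp, coeff_one_zero]
  · rw [coeff_mp, h k hk, coeff_one, if_neg (by omega)]

/-- a factor with constant coefficient `1` of a product equal to `1` is `1` -/
lemma eq_one_of_mul {p q : ℤ[X]} (h : p * q = 1) (h0 : p.coeff 0 = 1) : p = 1 := by
  have hu : IsUnit p := IsUnit.of_mul_eq_one q h
  obtain ⟨c, _, hc⟩ := Polynomial.isUnit_iff.1 hu
  rw [← hc] at h0 ⊢
  rw [coeff_C_zero] at h0
  rw [h0, map_one]

lemma mp_left (hVW : Disjoint V W) (h : ∀ u ∈ V, ∀ w ∈ W, A {u, w} = 0) (h1 : mp A (V ∪ W) = 1) :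
    mp A V = 1 :=
  eq_one_of_mul (by rw [← mp_union hVW h, h1]) coeff_zero_mp

/-- the value at `-1` of the polynomial of `V` without the sites of `T` -/
noncomputable def Fm (A : Finset α → ℤ) (V T : Finset α) : ℤ := (mp A (V \ T)).eval (-1)

end mat

end Pool.Agent.GaussPoset.St
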