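import Pool.Agent.W_448st_h88.MgB

/-! The first order identity at `-1`, compact form (MP_448cb3_co). -/

namespace Pool.Agent.GaussPoset.St

set_option linter.unusedSectionVars false

open Finset Polynomial

section mat

variable {α : Type*} [DecidableEq α] {V : Finset α}

/-- the sum over the sets of raised near elements at `v` -/
noncomputable def gg (A : Finset α → ℤ) (V : Finset α) (v : α) : ℤ :=
  ∑ S ∈ (V.erase v).powerset, (∏ y ∈ S, A {v, y}) * Fm A V (insert v S)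

/-- the recursion for pairs -/
lemma Fm_pair (A : Finset α → ℤ) {v y : α} (hv : v ∈ V) (hne : y ≠ v) :
    ∑ x ∈ (V.erase v).erase y, A {v, x} * Fm A V {v, x, y} = Fm A V {v, y} - Fm A V {y} := by
  have hT : v ∉ ({y} : Finset α) := by
    rw [mem_singleton]
    exact fun h => hne h.symm
  have h := Fm_rec (A := A) hv hT
  have h1 : V \ insert v {y} = (V.erase v).erase y := by
    ext x
    simp only [mem_erase, mem_sdiff, mem_insert, mem_singleton, not_or]
    tauto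
  rw [h1] at h
  have h2 : ∑ x ∈ (V.erase v).erase y, A {v, x} * Fm A V (insert x (insert v {y})) =
      ∑ x ∈ (V.erase v).erase y, A {v, x} * Fm A V {v, x, y} := by
    refine sum_congr rfl (fun x _ => ?_)
    rw [Finset.insert_comm]
  rw [h2] at h
  have h3 : (insert v {y} : Finset α) = {v, y} := rfl
  rw [h3] at h
  linarith

variable {D U th : Finset α → ℤ} {sg : α → ℤ}

/-- triples: the product form -/
lemma tri_sum (D U : Finset α → ℤ) (V : Finset α) :
    ∑ v ∈ V, ∑ x ∈ V.erase v, ∑ y ∈ (V.erase v).erase x,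
      (D {v, x} * D {v, y} - U {v, x} * U {v, y}) * Fm (fun T => D T - U T) V {v, x, y} =
    ∑ v ∈ V, ∑ y ∈ V.erase v, (D {v, y} + U {v, y}) *
      (Fm (fun T => D T - U T) V {v, y} - Fm (fun T => D T - U T) V {y}) := by
  set A : Finset α → ℤ := fun T => D T - U T with hA
  have hswap : ∀ v ∈ V, ∀ g : α → α → ℤ,
      ∑ x ∈ V.erase v, ∑ y ∈ (V.erase v).erase x, g x y =
      ∑ y ∈ V.erase v, ∑ x ∈ (V.erase v).erase y, g x y := by
    intro v _ g
    refine sum_comm' ?_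
    intro x y
    simp only [mem_erase]
    tauto
  refine sum_congr rfl (fun v hv => ?_)
  have h1 : 2 * ∑ x ∈ V.erase v, ∑ y ∈ (V.erase v).erase x,
      (D {v, x} * D {v, y} - U {v, x} * U {v, y}) * Fm A V {v, x, y} =
      ∑ x ∈ V.erase v, ∑ y ∈ (V.erase v).erase x,
        (D {v, y} + U {v, y}) * (A {v, x} * Fm A V {v, x, y}) +
      ∑ x ∈ V.erase v, ∑ y ∈ (V.erase v).erase x,
        (D {v, x} + U {v, x}) * (A {v, y} * Fm A V {v, y, x}) := by
    rw [mul_sum, ← sum_add_distrib]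
    refine sum_congr rfl (fun x _ => ?_)
    rw [mul_sum, ← sum_add_distrib]
    refine sum_congr rfl (fun y _ => ?_)
    have h2 : ({v, y, x} : Finset α) = {v, x, y} := by
      rw [pair_comm y x]
    rw [h2, hA]
    ring
  have h3 : ∑ x ∈ V.erase v, ∑ y ∈ (V.erase v).erase x,
        (D {v, y} + U {v, y}) * (A {v, x} * Fm A V {v, x, y}) =
      ∑ y ∈ V.erase v, (D {v, y} + U {v, y}) * (Fm A V {v, y} - Fm A V {y}) := by
    rw [hswap v hv]
    refine sum_congr rfl (fun y hy => ?_)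
    rw [← mul_sum, Fm_pair A hv (ne_of_mem_erase hy)]
  have h4 : ∑ x ∈ V.erase v, ∑ y ∈ (V.erase v).erase x,
        (D {v, x} + U {v, x}) * (A {v, y} * Fm A V {v, y, x}) =
      ∑ y ∈ V.erase v, (D {v, y} + U {v, y}) * (Fm A V {v, y} - Fm A V {y}) := by
    refine sum_congr rfl (fun y hy => ?_)
    rw [← mul_sum, Fm_pair A hv (ne_of_mem_erase hy)]
  rw [h3, h4] at h1
  linarith

/-- the first order identity at `-1`, compact form -/
theorem compact (hraw :
    ∑ u ∈ V, ∑ w ∈ V.erase u, (2 * D {u, w} + U {u, w}) *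
      (Fm (fun T => D T - U T) V {u, w} - 1) +
    ∑ u ∈ V, ∑ w ∈ V.erase u, (D {u, w} - U {u, w} + th {u, w}) *
      Fm (fun T => D T - U T) V {u, w} -
    ∑ v ∈ V, ∑ x ∈ V.erase v, ∑ y ∈ (V.erase v).erase x,
      (D {v, x} * D {v, y} - U {v, x} * U {v, y}) * Fm (fun T => D T - U T) V {v, x, y} =
    2 * ∑ v ∈ V, (gg (fun T => D T - U T) V v - 1) -
      2 * ∑ v ∈ V, sg v * (Fm (fun T => D T - U T) V {v} - 1)) :
    ∑ u ∈ V, ∑ w ∈ V.erase u, (D {u, w} + U {u, w}) *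
      (Fm (fun T => D T - U T) V {u, w} + Fm (fun T => D T - U T) V {u} +
        Fm (fun T => D T - U T) V {w} - 3) +
    3 * ∑ u ∈ V, ∑ w ∈ V.erase u, (D {u, w} - U {u, w}) *
      Fm (fun T => D T - U T) V {u, w} -
    ∑ u ∈ V, ∑ w ∈ V.erase u, (D {u, w} - U {u, w}) +
    2 * ∑ u ∈ V, ∑ w ∈ V.erase u, th {u, w} * Fm (fun T => D T - U T) V {u, w} =
    4 * ∑ v ∈ V, (gg (fun T => D T - U T) V v - 1) -
      4 * ∑ v ∈ V, sg v * (Fm (fun T => D T - U T) V {v} - 1) := by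
  rw [tri_sum] at hraw
  set A : Finset α → ℤ := fun T => D T - U T with hA
  have hsw : ∑ u ∈ V, ∑ w ∈ V.erase u, (D {u, w} + U {u, w}) * Fm A V {u} =
      ∑ u ∈ V, ∑ w ∈ V.erase u, (D {u, w} + U {u, w}) * Fm A V {w} := by
    have h1 : ∑ u ∈ V, ∑ w ∈ V.erase u, (D {u, w} + U {u, w}) * Fm A V {u} =
        ∑ w ∈ V, ∑ u ∈ V.erase w, (D {u, w} + U {u, w}) * Fm A V {u} := by
      refine sum_comm' ?_
      intro x y
      simp only [mem_erase]
      tauto
    rw [h1]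
    refine sum_congr rfl (fun u _ => sum_congr rfl (fun w _ => ?_))
    rw [pair_comm]
  have e1 : ∑ u ∈ V, ∑ w ∈ V.erase u, (D {u, w} + U {u, w}) *
      (Fm A V {u, w} + Fm A V {u} + Fm A V {w} - 3) =
      ∑ u ∈ V, ∑ w ∈ V.erase u, (D {u, w} + U {u, w}) * Fm A V {u, w} +
      2 * ∑ u ∈ V, ∑ w ∈ V.erase u, (D {u, w} + U {u, w}) * Fm A V {w} -
      3 * ∑ u ∈ V, ∑ w ∈ V.erase u, (D {u, w} + U {u, w}) := by
    rw [two_mul]
    nth_rewrite 2 [← hsw]
    simp only [mul_sum, ← sum_add_distrib, ← sum_sub_distrib]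
    refine sum_congr rfl (fun u _ => sum_congr rfl (fun w _ => ?_))
    ring
  have e2 : ∑ u ∈ V, ∑ w ∈ V.erase u, (2 * D {u, w} + U {u, w}) * (Fm A V {u, w} - 1) +
      ∑ u ∈ V, ∑ w ∈ V.erase u, (D {u, w} - U {u, w} + th {u, w}) * Fm A V {u, w} =
      ∑ u ∈ V, ∑ w ∈ V.erase u, (D {u, w} + U {u, w}) * Fm A V {u, w} +
      (∑ u ∈ V, ∑ w ∈ V.erase u, (2 * D {u, w} - U {u, w}) * Fm A V {u, w} -
      ∑ u ∈ V, ∑ w ∈ V.erase u, (2 * D {u, w} + U {u, w})) +
      ∑ u ∈ V, ∑ w ∈ V.erase u, th {u, w} * Fm A V {u, w} := by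
    simp only [← sum_add_distrib, ← sum_sub_distrib]
    refine sum_congr rfl (fun u _ => sum_congr rfl (fun w _ => ?_))
    ring
  have e3 : ∑ v ∈ V, ∑ y ∈ V.erase v, (D {v, y} + U {v, y}) * (Fm A V {v, y} - Fm A V {y}) =
      ∑ v ∈ V, ∑ y ∈ V.erase v, (D {v, y} + U {v, y}) * Fm A V {v, y} -
      ∑ v ∈ V, ∑ y ∈ V.erase v, (D {v, y} + U {v, y}) * Fm A V {y} := by
    simp only [← sum_sub_distrib]
    refine sum_congr rfl (fun u _ => sum_congr rfl (fun w _ => ?_))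
    ring
  have e4 : 2 * ∑ u ∈ V, ∑ w ∈ V.erase u, (2 * D {u, w} - U {u, w}) * Fm A V {u, w} =
      ∑ u ∈ V, ∑ w ∈ V.erase u, (D {u, w} + U {u, w}) * Fm A V {u, w} +
      3 * ∑ u ∈ V, ∑ w ∈ V.erase u, (D {u, w} - U {u, w}) * Fm A V {u, w} := by
    simp only [mul_sum, ← sum_add_distrib]
    refine sum_congr rfl (fun u _ => sum_congr rfl (fun w _ => ?_))
    ring
  have e5 : 2 * ∑ u ∈ V, ∑ w ∈ V.erase u, (2 * D {u, w} + U {u, w}) =
      3 * ∑ u ∈ V, ∑ w ∈ V.erase u, (D {u, w} + U {u, w}) +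
      ∑ u ∈ V, ∑ w ∈ V.erase u, (D {u, w} - U {u, w}) := by
    simp only [mul_sum, ← sum_add_distrib]
    refine sum_congr rfl (fun u _ => sum_congr rfl (fun w _ => ?_))
    ring
  rw [e2, e3] at hraw
  rw [e1]
  linarith

end mat

end Pool.Agent.GaussPoset.St
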