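import Pool.Agent.W_448st_h88.MgC

/-! Values of the matching polynomials for disjoint stars (MP_448cb3_co). -/

namespace Pool.Agent.GaussPoset.St

set_option linter.unusedSectionVars false

open Finset Polynomial

section star

variable {α : Type*} [DecidableEq α] {A : Finset α → ℤ} {V T : Finset α}

/-- the three sites of a star (centre, new neighbour, lost neighbour) -/
def sp (d : α × α × α) : Finset α := {d.1, d.2.1, d.2.2}

lemma mem_sp {d : α × α × α} {u : α} : u ∈ sp d ↔ u = d.1 ∨ u = d.2.1 ∨ u = d.2.2 := by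
  unfold sp
  rw [mem_insert, mem_insert, mem_singleton]

/-- one star -/
structure Star (A : Finset α → ℤ) (d : α × α × α) : Prop where
  sa : d.1 ≠ d.2.1
  sb : d.1 ≠ d.2.2
  ab : d.2.1 ≠ d.2.2
  Asa : A {d.1, d.2.1} = 1
  Asb : A {d.1, d.2.2} = -1
  Aab : A {d.2.1, d.2.2} = 0

/-- the weights are carried by disjoint stars -/
structure Starry (A : Finset α → ℤ) (V : Finset α) (I : Finset (α × α × α)) : Prop where
  star : ∀ d ∈ I, Star A d
  sub : ∀ d ∈ I, sp d ⊆ V
  disj : ∀ d ∈ I, ∀ d' ∈ I, d ≠ d' → Disjoint (sp d) (sp d')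
  zero : ∀ u ∈ V, ∀ w ∈ V, u ≠ w → (∀ d ∈ I, ¬ (u ∈ sp d ∧ w ∈ sp d)) → A {u, w} = 0

variable {d : α × α × α}

lemma Fm_of_zero (h : ∀ u ∈ V \ T, ∀ w ∈ V \ T, u ≠ w → A {u, w} = 0) : Fm A V T = 1 := by
  unfold Fm
  rw [mp_zero h, eval_one]

lemma mp_two {u w : α} (h : u ≠ w) : mp A {u, w} = 1 + C (A {u, w}) * X := by
  have h1 : u ∉ ({w} : Finset α) := by
    rw [mem_singleton]
    exact h
  rw [mp_insert A h1, mp_singleton, sum_singleton]
  have h2 : ({w} : Finset α).erase w = ∅ := by simp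
  rw [h2, mp_empty, mul_one]

lemma Star.f_s (h : Star A d) (hs : d.1 ∈ T) : Fm A (sp d) T = 1 := by
  refine Fm_of_zero ?_
  intro u hu w hw huw
  rw [mem_sdiff, mem_sp] at hu hw
  have hu1 : u ≠ d.1 := fun h => hu.2 (h ▸ hs)
  have hw1 : w ≠ d.1 := fun h => hw.2 (h ▸ hs)
  have hu2 := hu.1.resolve_left hu1
  have hw2 := hw.1.resolve_left hw1
  rcases hu2 with rfl | rfl <;> rcases hw2 with rfl | rfl
  · exact absurd rfl huw
  · exact h.Aab
  · rw [pair_comm]
    exact h.Aab
  · exact absurd rfl huw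

lemma Star.f_ab (_h : Star A d) (ha : d.2.1 ∈ T) (hb : d.2.2 ∈ T) : Fm A (sp d) T = 1 := by
  refine Fm_of_zero ?_
  intro u hu w hw huw
  rw [mem_sdiff, mem_sp] at hu hw
  have hu1 : u = d.1 := by
    rcases hu.1 with h | h | h
    · exact h
    · exact absurd (h ▸ ha) hu.2
    · exact absurd (h ▸ hb) hu.2
  have hw1 : w = d.1 := by
    rcases hw.1 with h | h | h
    · exact h
    · exact absurd (h ▸ ha) hw.2
    · exact absurd (h ▸ hb) hw.2
  exact absurd (hu1.trans hw1.symm) huw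

lemma Star.f_a (h : Star A d) (hs : d.1 ∉ T) (ha : d.2.1 ∈ T) (hb : d.2.2 ∉ T) :
    Fm A (sp d) T = 2 := by
  have h1 : sp d \ T = {d.1, d.2.2} := by
    ext u
    rw [mem_sdiff, mem_sp, mem_insert, mem_singleton]
    constructor
    · rintro ⟨h1 | h1 | h1, h2⟩
      · exact Or.inl h1
      · exact absurd (h1 ▸ ha) h2
      · exact Or.inr h1
    · rintro (h1 | h1)
      · exact ⟨Or.inl h1, h1 ▸ hs⟩
      · exact ⟨Or.inr (Or.inr h1), h1 ▸ hb⟩
  unfold Fm
  rw [h1, mp_two h.sb, h.Asb, eval_add, eval_mul, eval_one, eval_C, eval_X]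
  norm_num

lemma Star.f_b (h : Star A d) (hs : d.1 ∉ T) (ha : d.2.1 ∉ T) (hb : d.2.2 ∈ T) :
    Fm A (sp d) T = 0 := by
  have h1 : sp d \ T = {d.1, d.2.1} := by
    ext u
    rw [mem_sdiff, mem_sp, mem_insert, mem_singleton]
    constructor
    · rintro ⟨h1 | h1 | h1, h2⟩
      · exact Or.inl h1
      · exact Or.inr h1
      · exact absurd (h1 ▸ hb) h2
    · rintro (h1 | h1)
      · exact ⟨Or.inl h1, h1 ▸ hs⟩
      · exact ⟨Or.inr (Or.inl h1), h1 ▸ ha⟩
  unfold Fm
  rw [h1, mp_two h.sa, h.Asa, eval_add, eval_mul, eval_one, eval_C, eval_X]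
  norm_num

lemma Star.mp_one (h : Star A d) : mp A (sp d) = 1 := by
  have h1 : d.1 ∉ ({d.2.1, d.2.2} : Finset α) := by
    rw [mem_insert, mem_singleton, not_or]
    exact ⟨h.sa, h.sb⟩
  have h2 : ({d.2.1, d.2.2} : Finset α).erase d.2.1 = {d.2.2} := by
    rw [erase_insert]
    rw [mem_singleton]
    exact h.ab
  have h3 : ({d.2.1, d.2.2} : Finset α).erase d.2.2 = {d.2.1} := by
    rw [pair_comm, erase_insert]
    rw [mem_singleton]
    exact h.ab.symm
  have h4 : sp d = insert d.1 {d.2.1, d.2.2} := rfl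
  rw [h4, mp_insert A h1, mp_two h.ab, sum_pair h.ab, h2, h3, mp_singleton, mp_singleton, h.Asa,
    h.Asb, h.Aab]
  simp

lemma Star.f_none (h : Star A d) (hT : ∀ u ∈ T, u ∉ sp d) : Fm A (sp d) T = 1 := by
  unfold Fm
  have h1 : sp d \ T = sp d := by
    rw [Finset.sdiff_eq_self_iff_disjoint, disjoint_left]
    exact fun u hu hu' => hT u hu' hu
  rw [h1, h.mp_one, eval_one]

/-- only the part of `T` on the star matters -/
lemma Fm_congr {T' : Finset α} (h : ∀ u ∈ V, u ∈ T ↔ u ∈ T') : Fm A V T = Fm A V T' := by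
  unfold Fm
  have h1 : V \ T = V \ T' := by
    ext u
    rw [mem_sdiff, mem_sdiff]
    constructor
    · rintro ⟨h1, h2⟩
      exact ⟨h1, fun h3 => h2 ((h u h1).2 h3)⟩
    · rintro ⟨h1, h2⟩
      exact ⟨h1, fun h3 => h2 ((h u h1).1 h3)⟩
  rw [h1]

/-- sign of a site for a star -/
def ep (d : α × α × α) (u : α) : ℤ := (if u = d.2.1 then 1 else 0) - (if u = d.2.2 then 1 else 0)

lemma ep_eq_zero {u : α} (h : u ∉ sp d) : ep d u = 0 := by
  rw [mem_sp, not_or, not_or] at h
  unfold ep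
  rw [if_neg h.2.1, if_neg h.2.2, sub_zero]

lemma Star.f_one (h : Star A d) (u : α) : Fm A (sp d) {u} = 1 + ep d u := by
  by_cases h1 : u = d.1
  · rw [h.f_s (by rw [h1]; exact mem_singleton_self _)]
    unfold ep
    rw [h1, if_neg h.sa, if_neg h.sb]
    norm_num
  · by_cases h2 : u = d.2.1
    · rw [h.f_a]
      · unfold ep
        rw [if_pos h2, if_neg (h2 ▸ h.ab)]
        norm_num
      · rw [mem_singleton]
        exact fun h3 => h1 h3.symm
      · rw [h2]
        exact mem_singleton_self _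
      · rw [mem_singleton, h2]
        exact fun h3 => h.ab h3.symm
    · by_cases h3 : u = d.2.2
      · rw [h.f_b]
        · unfold ep
          rw [if_neg h2, if_pos h3]
          norm_num
        · rw [mem_singleton]
          exact fun h4 => h1 h4.symm
        · rw [mem_singleton]
          exact fun h4 => h2 h4.symm
        · rw [h3]
          exact mem_singleton_self _
      · have h4 : u ∉ sp d := by
          rw [mem_sp]
          tauto
        rw [h.f_none, ep_eq_zero h4, add_zero]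
        intro w hw
        rw [mem_singleton.1 hw]
        exact h4

/-- two different sites of one star -/
lemma Star.f_two (h : Star A d) {u w : α} (hu : u ∈ sp d) (hw : w ∈ sp d) (huw : u ≠ w) :
    Fm A (sp d) {u, w} = 1 := by
  rw [mem_sp] at hu hw
  rcases hu with rfl | rfl | rfl
  · exact h.f_s (mem_insert_self _ _)
  · rcases hw with rfl | rfl | rfl
    · exact h.f_s (mem_insert_of_mem (mem_singleton_self _))
    · exact absurd rfl huw
    · exact h.f_ab (mem_insert_self _ _) (mem_insert_of_mem (mem_singleton_self _))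
  · rcases hw with rfl | rfl | rfl
    · exact h.f_s (mem_insert_of_mem (mem_singleton_self _))
    · exact h.f_ab (mem_insert_of_mem (mem_singleton_self _)) (mem_insert_self _ _)
    · exact absurd rfl huw

/-- at most one of the two sites on the star -/
lemma Star.f_mul (h : Star A d) {u w : α} (hn : ¬ (u ∈ sp d ∧ w ∈ sp d)) :
    Fm A (sp d) {u, w} = Fm A (sp d) {u} * Fm A (sp d) {w} := by
  by_cases hu : u ∈ sp d
  · have hw : w ∉ sp d := fun h1 => hn ⟨hu, h1⟩
    have h1 : Fm A (sp d) {w} = 1 := by rw [h.f_one, ep_eq_zero hw, add_zero]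
    rw [h1, mul_one]
    refine Fm_congr (fun x hx => ?_)
    rw [mem_insert, mem_singleton, mem_singleton]
    constructor
    · rintro (h2 | h2)
      · exact h2
      · exact absurd (h2 ▸ hx) hw
    · exact Or.inl
  · have h1 : Fm A (sp d) {u} = 1 := by rw [h.f_one, ep_eq_zero hu, add_zero]
    rw [h1, one_mul]
    refine Fm_congr (fun x hx => ?_)
    rw [mem_insert, mem_singleton]
    constructor
    · rintro (h2 | h2)
      · exact absurd (h2 ▸ hx) hu
      · exact h2
    · exact Or.inr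

variable {I : Finset (α × α × α)}

/-- the polynomial without `T` is a product over the stars -/
theorem Starry.prod (H : Starry A V I) (T : Finset α) :
    Fm A V T = ∏ d ∈ I, Fm A (sp d) T := by
  classical
  have h1 : V \ T = (I.biUnion (fun d => sp d \ T)) ∪ ((V \ I.biUnion sp) \ T) := by
    ext u
    simp only [mem_union, mem_biUnion, mem_sdiff, not_exists, not_and]
    constructor
    · rintro ⟨h1, h2⟩
      by_cases h3 : ∃ d ∈ I, u ∈ sp d
      · obtain ⟨d, hd, hu⟩ := h3
        exact Or.inl ⟨d, hd, hu, h2⟩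
      · exact Or.inr ⟨⟨h1, fun d hd hu => h3 ⟨d, hd, hu⟩⟩, h2⟩
    · rintro (⟨d, hd, hu, h2⟩ | ⟨⟨h1, _⟩, h2⟩)
      · exact ⟨H.sub d hd hu, h2⟩
      · exact ⟨h1, h2⟩
  have h2 : mp A (I.biUnion (fun d => sp d \ T)) = ∏ d ∈ I, mp A (sp d \ T) := by
    refine mp_biUnion I (fun d => sp d \ T) ?_ ?_
    · intro i hi j hj hij
      exact disjoint_of_subset_left sdiff_subset
        (disjoint_of_subset_right sdiff_subset (H.disj i hi j hj hij))
    · intro i hi j hj hij u hu w hw
      have hu' := (mem_sdiff.1 hu).1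
      have hw' := (mem_sdiff.1 hw).1
      have hd := H.disj i hi j hj hij
      refine H.zero u (H.sub i hi hu') w (H.sub j hj hw') ?_ ?_
      · rintro rfl
        exact disjoint_left.1 hd hu' hw'
      · rintro d hd' ⟨h3, h4⟩
        by_cases h5 : d = i
        · subst h5
          exact disjoint_left.1 hd h4 hw'
        · exact disjoint_left.1 (H.disj d hd' i hi h5) h3 hu'
  have h3 : mp A ((V \ I.biUnion sp) \ T) = 1 := by
    refine mp_zero ?_
    intro u hu w hw huw
    have hu' := mem_sdiff.1 (mem_sdiff.1 hu).1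
    have hw' := mem_sdiff.1 (mem_sdiff.1 hw).1
    refine H.zero u hu'.1 w hw'.1 huw ?_
    rintro d hd ⟨h4, _⟩
    exact hu'.2 (mem_biUnion.2 ⟨d, hd, h4⟩)
  unfold Fm
  rw [h1, mp_union, h2, h3, mul_one, eval_prod]
  · rw [disjoint_left]
    intro u hu hu'
    obtain ⟨d, hd, h4⟩ := mem_biUnion.1 hu
    exact (mem_sdiff.1 (mem_sdiff.1 hu').1).2 (mem_biUnion.2 ⟨d, hd, (mem_sdiff.1 h4).1⟩)
  · intro u hu w hw
    obtain ⟨d, hd, h4⟩ := mem_biUnion.1 hu
    have h5 := (mem_sdiff.1 h4).1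
    have hw' := mem_sdiff.1 (mem_sdiff.1 hw).1
    refine H.zero u (H.sub d hd h5) w hw'.1 ?_ ?_
    · rintro rfl
      exact hw'.2 (mem_biUnion.2 ⟨d, hd, h5⟩)
    · rintro d' hd' ⟨_, h6⟩
      exact hw'.2 (mem_biUnion.2 ⟨d', hd', h6⟩)

/-- the sign of a site -/
def eps (I : Finset (α × α × α)) (u : α) : ℤ := ∑ d ∈ I, ep d u

lemma Starry.F_one (H : Starry A V I) (u : α) : Fm A V {u} = 1 + eps I u := by
  rw [H.prod]
  unfold eps
  by_cases h : ∃ d ∈ I, u ∈ sp d
  · obtain ⟨d, hd, hu⟩ := h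
    have h1 : ∀ d' ∈ I, d' ≠ d → u ∉ sp d' := fun d' hd' hne hu' =>
      disjoint_left.1 (H.disj d' hd' d hd hne) hu' hu
    rw [prod_eq_single d, sum_eq_single d, (H.star d hd).f_one]
    · exact fun d' hd' hne => ep_eq_zero (h1 d' hd' hne)
    · exact fun h2 => absurd hd h2
    · intro d' hd' hne
      rw [(H.star d' hd').f_one, ep_eq_zero (h1 d' hd' hne), add_zero]
    · exact fun h2 => absurd hd h2
  · have h1 : ∀ d ∈ I, u ∉ sp d := fun d hd hu => h ⟨d, hd, hu⟩
    rw [prod_eq_one, sum_eq_zero, add_zero]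
    · exact fun d hd => ep_eq_zero (h1 d hd)
    · intro d hd
      rw [(H.star d hd).f_one, ep_eq_zero (h1 d hd), add_zero]

lemma Starry.F_mul (H : Starry A V I) {u w : α} (h : ∀ d ∈ I, ¬ (u ∈ sp d ∧ w ∈ sp d)) :
    Fm A V {u, w} = (1 + eps I u) * (1 + eps I w) := by
  rw [← H.F_one, ← H.F_one, H.prod, H.prod, H.prod, ← prod_mul_distrib]
  exact prod_congr rfl (fun d hd => (H.star d hd).f_mul (h d hd))

lemma Starry.F_loc (H : Starry A V I) (hd : d ∈ I) (hT : T ⊆ sp d) :
    Fm A V T = Fm A (sp d) T := by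
  rw [H.prod, prod_eq_single d]
  · intro d' hd' hne
    refine (H.star d' hd').f_none ?_
    intro u hu hu'
    exact disjoint_left.1 (H.disj d' hd' d hd hne) hu' (hT hu)
  · exact fun h => absurd hd h

lemma Starry.F_two (H : Starry A V I) {u w : α} (hd : d ∈ I) (hu : u ∈ sp d) (hw : w ∈ sp d)
    (huw : u ≠ w) : Fm A V {u, w} = 1 := by
  rw [H.F_loc hd, (H.star d hd).f_two hu hw huw]
  intro x hx
  rcases mem_insert.1 hx with rfl | hx
  · exact hu
  · rw [mem_singleton.1 hx]
    exact hw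

end star

end Pool.Agent.GaussPoset.St
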