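import Pool.Agent.W_448st_h88.MgD

/-! Evaluation of the first order identity for disjoint stars (MP_448cb3_co). -/

namespace Pool.Agent.GaussPoset.St

set_option linter.unusedSectionVars false

open Finset Polynomial

section eva

variable {α : Type*} [DecidableEq α] {A : Finset α → ℤ} {V T : Finset α}
  {I : Finset (α × α × α)} {d : α × α × α}

lemma Starry.mem_s (H : Starry A V I) (hd : d ∈ I) : d.1 ∈ V :=
  H.sub d hd (mem_sp.2 (Or.inl rfl))

lemma Starry.mem_a (H : Starry A V I) (hd : d ∈ I) : d.2.1 ∈ V :=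
  H.sub d hd (mem_sp.2 (Or.inr (Or.inl rfl)))

lemma Starry.mem_b (H : Starry A V I) (hd : d ∈ I) : d.2.2 ∈ V :=
  H.sub d hd (mem_sp.2 (Or.inr (Or.inr rfl)))

lemma sum_pt {p q : α} (hp : p ∈ V) (hq : q ∈ V) (hpq : p ≠ q) (h : α → α → ℤ) :
    ∑ u ∈ V, ∑ w ∈ V.erase u, (if u = p ∧ w = q then (1 : ℤ) else 0) * h u w = h p q := by
  rw [sum_eq_single p, sum_eq_single q, if_pos ⟨rfl, rfl⟩, one_mul]
  · intro w _ hw
    rw [if_neg (fun h => hw h.2), zero_mul]
  · intro hn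
    exact absurd (mem_erase.2 ⟨hpq.symm, hq⟩) hn
  · intro u _ hu
    refine sum_eq_zero (fun w _ => ?_)
    rw [if_neg (fun h => hu h.1), zero_mul]
  · exact fun hn => absurd hp hn

lemma sum_row {v p q : α} (hq : q ∈ V) (hpq : p ≠ q) :
    ∑ w ∈ V.erase v, (if v = p ∧ w = q then (1 : ℤ) else 0) = if v = p then 1 else 0 := by
  by_cases hv : v = p
  · rw [if_pos hv, sum_eq_single q, if_pos ⟨hv, rfl⟩]
    · intro w _ hw
      rw [if_neg (fun h => hw h.2)]
    · intro hn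
      exact absurd (mem_erase.2 ⟨fun h => hpq (hv ▸ h.symm), hq⟩) hn
  · rw [if_neg hv]
    refine sum_eq_zero (fun w _ => ?_)
    rw [if_neg (fun h => hv h.1)]

/-- the weights of one star -/
def ad (d : α × α × α) (u w : α) : ℤ :=
  (if u = d.1 ∧ w = d.2.1 then 1 else 0) + (if u = d.2.1 ∧ w = d.1 then 1 else 0) -
    (if u = d.1 ∧ w = d.2.2 then 1 else 0) - (if u = d.2.2 ∧ w = d.1 then 1 else 0)

lemma ad_zero {u w : α} (h : ¬ (u ∈ sp d ∧ w ∈ sp d)) : ad d u w = 0 := by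
  have h1 : ¬ (u = d.1 ∧ w = d.2.1) := by
    rintro ⟨h1, h2⟩
    exact h ⟨mem_sp.2 (Or.inl h1), mem_sp.2 (Or.inr (Or.inl h2))⟩
  have h2 : ¬ (u = d.2.1 ∧ w = d.1) := by
    rintro ⟨h1, h2⟩
    exact h ⟨mem_sp.2 (Or.inr (Or.inl h1)), mem_sp.2 (Or.inl h2)⟩
  have h3 : ¬ (u = d.1 ∧ w = d.2.2) := by
    rintro ⟨h1, h2⟩
    exact h ⟨mem_sp.2 (Or.inl h1), mem_sp.2 (Or.inr (Or.inr h2))⟩
  have h4 : ¬ (u = d.2.2 ∧ w = d.1) := by
    rintro ⟨h1, h2⟩
    exact h ⟨mem_sp.2 (Or.inr (Or.inr h1)), mem_sp.2 (Or.inl h2)⟩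
  unfold ad
  rw [if_neg h1, if_neg h2, if_neg h3, if_neg h4]
  norm_num

lemma Star.ad_eq (h : Star A d) {u w : α} (hu : u ∈ sp d) (hw : w ∈ sp d) (huw : u ≠ w) :
    A {u, w} = ad d u w := by
  have e1 := h.sa
  have e2 := h.sb
  have e3 := h.ab
  rw [mem_sp] at hu hw
  unfold ad
  rcases hu with rfl | rfl | rfl <;> rcases hw with rfl | rfl | rfl
  · exact absurd rfl huw
  · rw [h.Asa, if_pos ⟨rfl, rfl⟩, if_neg (fun h => e1 h.1), if_neg (fun h => e3 h.2),
      if_neg (fun h => e2 h.1)]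
    norm_num
  · rw [h.Asb, if_neg (fun h => e3 h.2.symm), if_neg (fun h => e1 h.1), if_pos ⟨rfl, rfl⟩,
      if_neg (fun h => e2 h.1)]
    norm_num
  · rw [pair_comm, h.Asa, if_neg (fun h => e1 h.1.symm), if_pos ⟨rfl, rfl⟩,
      if_neg (fun h => e1 h.1.symm), if_neg (fun h => e3 h.1)]
    norm_num
  · exact absurd rfl huw
  · rw [h.Aab, if_neg (fun h => e1 h.1.symm), if_neg (fun h => e2 h.2.symm),
      if_neg (fun h => e1 h.1.symm), if_neg (fun h => e3 h.1)]
    norm_num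
  · rw [pair_comm, h.Asb, if_neg (fun h => e2 h.1.symm), if_neg (fun h => e3 h.1.symm),
      if_neg (fun h => e2 h.1.symm), if_pos ⟨rfl, rfl⟩]
    norm_num
  · rw [pair_comm, h.Aab, if_neg (fun h => e2 h.1.symm), if_neg (fun h => e3 h.1.symm),
      if_neg (fun h => e2 h.1.symm), if_neg (fun h => e1 h.2.symm)]
    norm_num
  · exact absurd rfl huw

/-- the weights are the sum of the weights of the stars -/
lemma Starry.A_eq (H : Starry A V I) {u w : α} (hu : u ∈ V) (hw : w ∈ V) (huw : u ≠ w) :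
    A {u, w} = ∑ d ∈ I, ad d u w := by
  by_cases h : ∃ d ∈ I, u ∈ sp d ∧ w ∈ sp d
  · obtain ⟨d, hd, h1, h2⟩ := h
    rw [sum_eq_single d, (H.star d hd).ad_eq h1 h2 huw]
    · intro d' hd' hne
      refine ad_zero ?_
      rintro ⟨h3, _⟩
      exact disjoint_left.1 (H.disj d' hd' d hd hne) h3 h1
    · exact fun h => absurd hd h
  · have h1 : ∀ d ∈ I, ¬ (u ∈ sp d ∧ w ∈ sp d) := fun d hd h2 => h ⟨d, hd, h2⟩
    rw [H.zero u hu w hw huw h1, sum_eq_zero (fun d hd => ad_zero (h1 d hd))]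

/-- sums against the weights -/
theorem Starry.sum_A (H : Starry A V I) (h : α → α → ℤ) :
    ∑ u ∈ V, ∑ w ∈ V.erase u, A {u, w} * h u w =
      ∑ d ∈ I, (h d.1 d.2.1 + h d.2.1 d.1 - h d.1 d.2.2 - h d.2.2 d.1) := by
  have h1 : ∑ u ∈ V, ∑ w ∈ V.erase u, A {u, w} * h u w =
      ∑ d ∈ I, ∑ u ∈ V, ∑ w ∈ V.erase u, ad d u w * h u w := by
    rw [sum_comm]
    refine sum_congr rfl (fun u hu => ?_)
    rw [sum_comm]
    refine sum_congr rfl (fun w hw => ?_)
    rw [H.A_eq hu (mem_of_mem_erase hw) (ne_of_mem_erase hw).symm, sum_mul]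
  rw [h1]
  refine sum_congr rfl (fun d hd => ?_)
  have hs := H.mem_s hd
  have ha := H.mem_a hd
  have hb := H.mem_b hd
  have e1 := (H.star d hd).sa
  have e2 := (H.star d hd).sb
  rw [← sum_pt hs ha e1 h, ← sum_pt ha hs e1.symm h, ← sum_pt hs hb e2 h,
    ← sum_pt hb hs e2.symm h]
  simp only [← sum_add_distrib, ← sum_sub_distrib]
  refine sum_congr rfl (fun u _ => sum_congr rfl (fun w _ => ?_))
  unfold ad
  ring

/-- the weighted degree of a site is its sign -/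
theorem Starry.dg_eq (H : Starry A V I) {v : α} (hv : v ∈ V) : dg A V v = eps I v := by
  unfold dg eps
  have h1 : ∑ w ∈ V.erase v, A {v, w} = ∑ d ∈ I, ∑ w ∈ V.erase v, ad d v w := by
    rw [sum_comm]
    refine sum_congr rfl (fun w hw => ?_)
    rw [H.A_eq hv (mem_of_mem_erase hw) (ne_of_mem_erase hw).symm]
  rw [h1]
  refine sum_congr rfl (fun d hd => ?_)
  have hs := H.mem_s hd
  have ha := H.mem_a hd
  have hb := H.mem_b hd
  have e1 := (H.star d hd).sa
  have e2 := (H.star d hd).sb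
  unfold ad ep
  rw [sum_sub_distrib, sum_sub_distrib, sum_add_distrib, sum_row ha e1, sum_row hs e1.symm,
    sum_row hb e2, sum_row hs e2.symm]
  ring

/-- sums against the signs -/
theorem Starry.sum_eps (H : Starry A V I) (h : α → ℤ) :
    ∑ v ∈ V, eps I v * h v = ∑ d ∈ I, (h d.2.1 - h d.2.2) := by
  have h1 : ∑ v ∈ V, eps I v * h v = ∑ d ∈ I, ∑ v ∈ V, ep d v * h v := by
    rw [sum_comm]
    refine sum_congr rfl (fun v _ => ?_)
    unfold eps
    rw [sum_mul]
  rw [h1]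
  refine sum_congr rfl (fun d hd => ?_)
  unfold ep
  have h2 : ∀ p ∈ V, ∑ v ∈ V, (if v = p then (1 : ℤ) else 0) * h v = h p := by
    intro p hp
    rw [sum_eq_single p, if_pos rfl, one_mul]
    · intro v _ hv
      rw [if_neg hv, zero_mul]
    · exact fun hn => absurd hp hn
  simp only [sub_mul]
  rw [sum_sub_distrib, h2 _ (H.mem_a hd), h2 _ (H.mem_b hd)]

lemma Starry.eps_mem (H : Starry A V I) {u : α} (hd : d ∈ I) (hu : u ∈ sp d) :
    eps I u = ep d u := by
  unfold eps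
  rw [sum_eq_single d]
  · intro d' hd' hne
    refine ep_eq_zero (fun h => ?_)
    exact disjoint_left.1 (H.disj d' hd' d hd hne) h hu
  · exact fun hn => absurd hd hn

lemma Starry.eps_s (H : Starry A V I) (hd : d ∈ I) : eps I d.1 = 0 := by
  rw [H.eps_mem hd (mem_sp.2 (Or.inl rfl))]
  unfold ep
  rw [if_neg (H.star d hd).sa, if_neg (H.star d hd).sb, sub_zero]

lemma Starry.eps_a (H : Starry A V I) (hd : d ∈ I) : eps I d.2.1 = 1 := by
  rw [H.eps_mem hd (mem_sp.2 (Or.inr (Or.inl rfl)))]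
  unfold ep
  rw [if_pos rfl, if_neg (H.star d hd).ab, sub_zero]

lemma Starry.eps_b (H : Starry A V I) (hd : d ∈ I) : eps I d.2.2 = -1 := by
  rw [H.eps_mem hd (mem_sp.2 (Or.inr (Or.inr rfl)))]
  unfold ep
  rw [if_neg (H.star d hd).ab.symm, if_pos rfl, zero_sub]

lemma Starry.eps_none (_H : Starry A V I) {u : α} (hu : ∀ d ∈ I, u ∉ sp d) : eps I u = 0 := by
  unfold eps
  exact sum_eq_zero (fun d hd => ep_eq_zero (hu d hd))

open Classical in
/-- the sites are not on one star -/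
noncomputable def nst (I : Finset (α × α × α)) (u w : α) : ℤ :=
  if ∃ d ∈ I, u ∈ sp d ∧ w ∈ sp d then 0 else 1

/-- values for pairs -/
theorem Starry.F_pair (H : Starry A V I) {u w : α} (hu : u ∈ V) (hw : w ∈ V) (huw : u ≠ w) :
    Fm A V {u, w} = 1 + eps I u + eps I w - A {u, w} + nst I u w * (eps I u * eps I w) := by
  unfold nst
  by_cases h : ∃ d ∈ I, u ∈ sp d ∧ w ∈ sp d
  · rw [if_pos h]
    obtain ⟨d, hd, h1, h2⟩ := h
    rw [H.F_two hd h1 h2 huw]
    have hst := H.star d hd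
    have es := H.eps_s hd
    have ea := H.eps_a hd
    have eb := H.eps_b hd
    have a1 := hst.Asa
    have a2 := hst.Asb
    have a3 := hst.Aab
    have a4 : A {d.2.1, d.1} = 1 := by rw [pair_comm]; exact a1
    have a5 : A {d.2.2, d.1} = -1 := by rw [pair_comm]; exact a2
    have a6 : A {d.2.2, d.2.1} = 0 := by rw [pair_comm]; exact a3
    rw [mem_sp] at h1 h2
    rcases h1 with rfl | rfl | rfl <;> rcases h2 with rfl | rfl | rfl
    · exact absurd rfl huw
    · rw [es, ea, a1]; norm_num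
    · rw [es, eb, a2]; norm_num
    · rw [es, ea, a4]; norm_num
    · exact absurd rfl huw
    · rw [ea, eb, a3]; norm_num
    · rw [es, eb, a5]; norm_num
    · rw [ea, eb, a6]; norm_num
    · exact absurd rfl huw
  · rw [if_neg h]
    have h1 : ∀ d ∈ I, ¬ (u ∈ sp d ∧ w ∈ sp d) := fun d hd h2 => h ⟨d, hd, h2⟩
    rw [H.F_mul h1, H.zero u hu w hw huw h1]
    ring

lemma gg_sub {v : α} {N : Finset α} (hN : N ⊆ V.erase v)
    (h0 : ∀ y ∈ V.erase v, y ∉ N → A {v, y} = 0) :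
    gg A V v = ∑ S ∈ N.powerset, (∏ y ∈ S, A {v, y}) * Fm A V (insert v S) := by
  unfold gg
  refine (sum_subset (powerset_mono.2 hN) ?_).symm
  intro S hS hn
  rw [mem_powerset] at hS
  rw [mem_powerset, not_subset] at hn
  obtain ⟨y, hy, hy'⟩ := hn
  rw [prod_eq_zero hy (h0 y (hS hy) hy'), zero_mul]

lemma pow_single (x : α) : ({x} : Finset α).powerset = {∅, {x}} := by
  ext S
  rw [mem_powerset, subset_singleton_iff, mem_insert, mem_singleton]

/-- number of stars with the given centre -/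
def ce (I : Finset (α × α × α)) (v : α) : ℤ := ∑ d ∈ I, if v = d.1 then 1 else 0

lemma Starry.nb_zero (H : Starry A V I) {v y : α} (hd : d ∈ I) (hv : v ∈ sp d)
    (hy : y ∈ V.erase v) (hy' : y ∉ sp d) : A {v, y} = 0 := by
  refine H.zero v (H.sub d hd hv) y (mem_of_mem_erase hy) (ne_of_mem_erase hy).symm ?_
  rintro d' hd' ⟨h1, h2⟩
  by_cases h : d' = d
  · exact hy' (h ▸ h2)
  · exact disjoint_left.1 (H.disj d' hd' d hd h) h1 hv

lemma Starry.gg_s (H : Starry A V I) (hd : d ∈ I) : gg A V d.1 = 0 := by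
  have hst := H.star d hd
  have e1 := hst.sa
  have e2 := hst.sb
  have e3 := hst.ab
  rw [gg_sub (N := {d.2.1, d.2.2})]
  · have h1 : ∀ S ∈ ({d.2.1, d.2.2} : Finset α).powerset,
        (∏ y ∈ S, A {d.1, y}) * Fm A V (insert d.1 S) = ∏ y ∈ S, A {d.1, y} := by
      intro S hS
      rw [mem_powerset] at hS
      have h2 : insert d.1 S ⊆ sp d := by
        intro x hx
        rw [mem_insert] at hx
        rw [mem_sp]
        rcases hx with hx | hx
        · exact Or.inl hx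
        · have h3 := hS hx
          rw [mem_insert, mem_singleton] at h3
          exact Or.inr h3
      rw [H.F_loc hd h2, hst.f_s (mem_insert_self _ _), mul_one]
    rw [sum_congr rfl h1, ← Finset.prod_one_add, prod_pair e3, hst.Asa, hst.Asb]
    norm_num
  · intro x hx
    rw [mem_insert, mem_singleton] at hx
    rw [mem_erase]
    rcases hx with rfl | rfl
    · exact ⟨e1.symm, H.mem_a hd⟩
    · exact ⟨e2.symm, H.mem_b hd⟩
  · intro y hy hy'
    refine H.nb_zero hd (mem_sp.2 (Or.inl rfl)) hy ?_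
    rw [mem_insert, mem_singleton] at hy'
    rw [mem_sp]
    rintro (h | h)
    · exact (ne_of_mem_erase hy) h
    · exact hy' h

lemma Starry.gg_a (H : Starry A V I) (hd : d ∈ I) : gg A V d.2.1 = 3 := by
  have hst := H.star d hd
  have e1 := hst.sa
  have e2 := hst.sb
  have e3 := hst.ab
  rw [gg_sub (N := {d.1})]
  · rw [pow_single, sum_pair (singleton_ne_empty _).symm, prod_empty, prod_singleton,
      one_mul]
    have h1 : Fm A V (insert d.2.1 ∅) = 2 := by
      rw [insert_empty, H.F_one, H.eps_a hd]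
      norm_num
    have h2 : Fm A V (insert d.2.1 {d.1}) = 1 := by
      refine H.F_two hd (mem_sp.2 (Or.inr (Or.inl rfl))) (mem_sp.2 (Or.inl rfl)) e1.symm
    rw [h1, h2, pair_comm, hst.Asa]
    norm_num
  · intro x hx
    rw [mem_singleton] at hx
    rw [mem_erase, hx]
    exact ⟨e1, H.mem_s hd⟩
  · intro y hy hy'
    rw [mem_singleton] at hy'
    by_cases h : y = d.2.2
    · rw [h, hst.Aab]
    · refine H.nb_zero hd (mem_sp.2 (Or.inr (Or.inl rfl))) hy ?_
      rw [mem_sp]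
      rintro (h1 | h1 | h1)
      · exact hy' h1
      · exact (ne_of_mem_erase hy) h1
      · exact h h1

lemma Starry.gg_b (H : Starry A V I) (hd : d ∈ I) : gg A V d.2.2 = -1 := by
  have hst := H.star d hd
  have e1 := hst.sa
  have e2 := hst.sb
  have e3 := hst.ab
  rw [gg_sub (N := {d.1})]
  · rw [pow_single, sum_pair (singleton_ne_empty _).symm, prod_empty, prod_singleton,
      one_mul]
    have h1 : Fm A V (insert d.2.2 ∅) = 0 := by
      rw [insert_empty, H.F_one, H.eps_b hd]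
      norm_num
    have h2 : Fm A V (insert d.2.2 {d.1}) = 1 := by
      refine H.F_two hd (mem_sp.2 (Or.inr (Or.inr rfl))) (mem_sp.2 (Or.inl rfl)) e2.symm
    rw [h1, h2, pair_comm, hst.Asb]
    norm_num
  · intro x hx
    rw [mem_singleton] at hx
    rw [mem_erase, hx]
    exact ⟨e2, H.mem_s hd⟩
  · intro y hy hy'
    rw [mem_singleton] at hy'
    by_cases h : y = d.2.1
    · rw [h, pair_comm, hst.Aab]
    · refine H.nb_zero hd (mem_sp.2 (Or.inr (Or.inr rfl))) hy ?_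
      rw [mem_sp]
      rintro (h1 | h1 | h1)
      · exact hy' h1
      · exact h h1
      · exact (ne_of_mem_erase hy) h1

lemma Starry.gg_none (H : Starry A V I) {v : α} (hv : v ∈ V) (hn : ∀ d ∈ I, v ∉ sp d) :
    gg A V v = 1 := by
  rw [gg_sub (N := ∅)]
  · rw [powerset_empty, sum_singleton, prod_empty, one_mul, insert_empty, H.F_one,
      H.eps_none hn, add_zero]
  · exact empty_subset _
  · intro y hy _
    refine H.zero v hv y (mem_of_mem_erase hy) (ne_of_mem_erase hy).symm ?_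
    rintro d hd ⟨h1, _⟩
    exact hn d hd h1

lemma Starry.ce_mem (H : Starry A V I) {u : α} (hd : d ∈ I) (hu : u ∈ sp d) :
    ce I u = if u = d.1 then 1 else 0 := by
  unfold ce
  rw [sum_eq_single d]
  · intro d' hd' hne
    rw [if_neg]
    intro h
    refine disjoint_left.1 (H.disj d' hd' d hd hne) ?_ hu
    rw [h]
    exact mem_sp.2 (Or.inl rfl)
  · exact fun hn => absurd hd hn

/-- the site term -/
theorem Starry.gg_eq (H : Starry A V I) {v : α} (hv : v ∈ V) :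
    gg A V v = 1 + 2 * eps I v - ce I v := by
  by_cases h : ∃ d ∈ I, v ∈ sp d
  · obtain ⟨d, hd, h1⟩ := h
    have hst := H.star d hd
    rw [H.ce_mem hd h1]
    rcases mem_sp.1 h1 with rfl | rfl | rfl
    · rw [H.gg_s hd, H.eps_s hd, if_pos rfl]
      norm_num
    · rw [H.gg_a hd, H.eps_a hd, if_neg hst.sa.symm]
      norm_num
    · rw [H.gg_b hd, H.eps_b hd, if_neg hst.sb.symm]
      norm_num
  · have h1 : ∀ d ∈ I, v ∉ sp d := fun d hd h2 => h ⟨d, hd, h2⟩
    have h2 : ce I v = 0 := by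
      unfold ce
      refine sum_eq_zero (fun d hd => ?_)
      rw [if_neg]
      intro h3
      exact h1 d hd (mem_sp.2 (Or.inl h3))
    rw [H.gg_none hv h1, H.eps_none h1, h2]
    norm_num

theorem Starry.sum_gg (H : Starry A V I) : ∑ v ∈ V, (gg A V v - 1) = -(I.card : ℤ) := by
  have h1 : ∀ v ∈ V, gg A V v - 1 = eps I v * 2 - ce I v := by
    intro v hv
    rw [H.gg_eq hv]
    ring
  rw [sum_congr rfl h1, sum_sub_distrib, H.sum_eps (fun _ => 2)]
  have h2 : ∑ v ∈ V, ce I v = (I.card : ℤ) := by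
    unfold ce
    rw [sum_comm]
    have h3 : ∀ d ∈ I, ∑ v ∈ V, (if v = d.1 then (1 : ℤ) else 0) = 1 := by
      intro d hd
      rw [sum_ite_eq' V d.1, if_pos (H.mem_s hd)]
    rw [sum_congr rfl h3, sum_const, nsmul_eq_mul, mul_one]
  rw [h2]
  simp

variable {B th : Finset α → ℤ} {sg : α → ℤ}

/-- covers, counted with the weights -/
def cov (B : Finset α → ℤ) (sg : α → ℤ) (V : Finset α) (v : α) : ℤ :=
  ∑ w ∈ V.erase v, B {v, w} + sg v

/-- four times the contribution of a star -/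
def Tv (B : Finset α → ℤ) (sg : α → ℤ) (V : Finset α) (d : α × α × α) : ℤ :=
  -4 + 4 * (cov B sg V d.2.2 - cov B sg V d.2.1) + 2 * (B {d.1, d.2.1} - B {d.1, d.2.2})

lemma sum_swap (f : α → α → ℤ) :
    ∑ u ∈ V, ∑ w ∈ V.erase u, f u w = ∑ u ∈ V, ∑ w ∈ V.erase u, f w u := by
  refine sum_comm' ?_
  intro x y
  simp only [mem_erase]
  tauto

/-- the first order identity at `-1`, evaluated -/
theorem Starry.value (H : Starry A V I)
    (h6 : ∑ u ∈ V, ∑ w ∈ V.erase u, B {u, w} * (Fm A V {u, w} + Fm A V {u} + Fm A V {w} - 3) +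
      2 * ∑ u ∈ V, ∑ w ∈ V.erase u, th {u, w} * Fm A V {u, w} =
      4 * ∑ v ∈ V, (gg A V v - 1) - 4 * ∑ v ∈ V, sg v * (Fm A V {v} - 1)) :
    ∑ d ∈ I, Tv B sg V d =
      ∑ u ∈ V, ∑ w ∈ V.erase u, B {u, w} * (nst I u w * (eps I u * eps I w)) +
      2 * ∑ u ∈ V, ∑ w ∈ V.erase u, th {u, w} * Fm A V {u, w} := by
  have h1 : ∑ u ∈ V, ∑ w ∈ V.erase u, B {u, w} *
      (Fm A V {u, w} + Fm A V {u} + Fm A V {w} - 3) =
      4 * ∑ u ∈ V, eps I u * ∑ w ∈ V.erase u, B {u, w} -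
      ∑ u ∈ V, ∑ w ∈ V.erase u, A {u, w} * B {u, w} +
      ∑ u ∈ V, ∑ w ∈ V.erase u, B {u, w} * (nst I u w * (eps I u * eps I w)) := by
    have e0 : ∑ u ∈ V, ∑ w ∈ V.erase u, B {u, w} *
        (Fm A V {u, w} + Fm A V {u} + Fm A V {w} - 3) =
        2 * ∑ u ∈ V, ∑ w ∈ V.erase u, eps I u * B {u, w} +
        2 * ∑ u ∈ V, ∑ w ∈ V.erase u, eps I w * B {u, w} -
        ∑ u ∈ V, ∑ w ∈ V.erase u, A {u, w} * B {u, w} +
        ∑ u ∈ V, ∑ w ∈ V.erase u, B {u, w} * (nst I u w * (eps I u * eps I w)) := by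
      simp only [mul_sum, ← sum_add_distrib, ← sum_sub_distrib]
      refine sum_congr rfl (fun u hu => sum_congr rfl (fun w hw => ?_))
      rw [H.F_pair hu (mem_of_mem_erase hw) (ne_of_mem_erase hw).symm, H.F_one, H.F_one]
      ring
    have e1 : ∑ u ∈ V, ∑ w ∈ V.erase u, eps I w * B {u, w} =
        ∑ u ∈ V, ∑ w ∈ V.erase u, eps I u * B {u, w} := by
      rw [sum_swap]
      refine sum_congr rfl (fun u _ => sum_congr rfl (fun w _ => ?_))
      rw [pair_comm]
    have e2 : ∑ u ∈ V, eps I u * ∑ w ∈ V.erase u, B {u, w} =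
        ∑ u ∈ V, ∑ w ∈ V.erase u, eps I u * B {u, w} := by
      refine sum_congr rfl (fun u _ => ?_)
      rw [mul_sum]
    rw [e0, e1, e2]
    ring
  have h2 : ∑ v ∈ V, sg v * (Fm A V {v} - 1) = ∑ v ∈ V, eps I v * sg v := by
    refine sum_congr rfl (fun v _ => ?_)
    rw [H.F_one]
    ring
  rw [h1, H.sum_gg, h2, H.sum_A (fun u w => B {u, w}), H.sum_eps, H.sum_eps] at h6
  have h3 : ∑ d ∈ I, Tv B sg V d =
      -4 * (I.card : ℤ) - 4 * ∑ d ∈ I, ((∑ w ∈ V.erase d.2.1, B {d.2.1, w}) -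
        ∑ w ∈ V.erase d.2.2, B {d.2.2, w}) - 4 * ∑ d ∈ I, (sg d.2.1 - sg d.2.2) +
      ∑ d ∈ I, (B {d.1, d.2.1} + B {d.2.1, d.1} - B {d.1, d.2.2} - B {d.2.2, d.1}) := by
    have e3 : (-4 : ℤ) * (I.card : ℤ) = ∑ d ∈ I, (-4 : ℤ) := by
      rw [sum_const, nsmul_eq_mul]
      ring
    rw [e3]
    simp only [mul_sum, ← sum_add_distrib, ← sum_sub_distrib]
    refine sum_congr rfl (fun d _ => ?_)
    unfold Tv cov
    rw [pair_comm d.2.1 d.1, pair_comm d.2.2 d.1]
    ring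
  rw [h3]
  linarith

end eva

end Pool.Agent.GaussPoset.St
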